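import Mathlib

/-!
Functions on real projective space `RP^n = (ℝ^{n+1} ∖ {0}) / ℝ^*`, the Laplace operator of a
round metric on it, eigenvalue listings and minimal immersions into unit spheres.
-/

namespace Pool.Agent.X154.RP

/-- Euclidean space `ℝ^d`. -/
abbrev E (d : ℕ) := EuclideanSpace ℝ (Fin d)

/-- The `i`-th partial derivative. -/
noncomputable def pd {d : ℕ} (i : Fin d) (F : E d → ℝ) (x : E d) : ℝ :=
  fderiv ℝ F x (EuclideanSpace.single i (1 : ℝ))

/-- The Euclidean Laplacian: the sum of the second partial derivatives. -/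
noncomputable def lap {d : ℕ} (F : E d → ℝ) (x : E d) : ℝ := ∑ i, pd i (pd i F) x

/-- Smooth functions on `RP^{d-1} = (ℝ^d ∖ {0}) / ℝ^*`: smooth functions on `ℝ^d ∖ {0}` invariant
under multiplication of the variable by non-zero real numbers (value `0` at the origin by
convention). -/
def IsProj {d : ℕ} (F : E d → ℝ) : Prop :=
  F 0 = 0 ∧ ContDiffOn ℝ (⊤ : ℕ∞) F {0}ᶜ ∧ ∀ t : ℝ, t ≠ 0 → ∀ x, F (t • x) = F x

/-- The Laplace–Beltrami operator of the metric `ρ g₀` on `RP^{d-1}`, where `g₀` is the metric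
induced by the unit sphere: for a function `F` that is invariant under scaling,
`Δ_{g₀} F = ‖x‖² ΔF` with `Δ` the Euclidean Laplacian, and `Δ_{ρ g₀} = ρ⁻¹ Δ_{g₀}`. -/
noncomputable def lapRP {d : ℕ} (ρ : ℝ) (F : E d → ℝ) (x : E d) : ℝ :=
  ρ⁻¹ * (‖x‖ ^ 2 * lap F x)

/-- `F` is an eigenfunction (or zero) of `Δ F = -μ F` on `(RP^{d-1}, ρ g₀)`. -/
def IsEig (d : ℕ) (ρ μ : ℝ) (F : E d → ℝ) : Prop :=
  IsProj F ∧ ∀ x, x ≠ 0 → lapRP ρ F x = -μ * F x

end Pool.Agent.X154.RP
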