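import Mathlib
import Pool.Agent.X154.RP.Def

namespace Pool.Agent.X154.RP

open Filter Topology MeasureTheory

variable {d : ℕ}

theorem two_le_top : (2 : WithTop ℕ∞) ≤ ((⊤ : ℕ∞) : WithTop ℕ∞) :=
  WithTop.coe_le_coe.2 (le_top : (2 : ℕ∞) ≤ ⊤)

theorem contDiffAt_pd {i : Fin d} {F : E d → ℝ} {x : E d} {m n : ℕ∞}
    (hF : ContDiffAt ℝ n F x) (hmn : (m : WithTop ℕ∞) + 1 ≤ n) : ContDiffAt ℝ m (pd i F) x := by
  unfold pd
  exact (hF.fderiv_right hmn).clm_apply contDiffAt_const

theorem pd_mul {i : Fin d} {f g : E d → ℝ} {x : E d} (hf : DifferentiableAt ℝ f x)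
    (hg : DifferentiableAt ℝ g x) :
    pd i (fun y => f y * g y) x = f x * pd i g x + pd i f x * g x := by
  unfold pd
  rw [fderiv_fun_mul hf hg]
  simp
  ring

theorem pd_congr {i : Fin d} {f g : E d → ℝ} {x : E d} (h : f =ᶠ[𝓝 x] g) :
    pd i f x = pd i g x := by
  unfold pd
  rw [h.fderiv_eq]

theorem lap_congr {f g : E d → ℝ} {x : E d} (h : f =ᶠ[𝓝 x] g) : lap f x = lap g x := by
  unfold lap
  apply Finset.sum_congr rfl
  intro i _
  apply pd_congr
  exact h.eventuallyEq_nhds.mono fun y hy => pd_congr hy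

theorem eventually_diff {f : E d → ℝ} {x : E d} (hf : ContDiffAt ℝ 2 f x) :
    ∀ᶠ y in 𝓝 x, DifferentiableAt ℝ f y := by
  have h := hf.eventually (by simp)
  exact h.mono fun y hy => hy.differentiableAt (by norm_num)

theorem lap_mul {f g : E d → ℝ} {x : E d} (hf : ContDiffAt ℝ 2 f x) (hg : ContDiffAt ℝ 2 g x) :
    lap (fun y => f y * g y) x
      = f x * lap g x + 2 * ∑ i, pd i f x * pd i g x + lap f x * g x := by
  unfold lap
  rw [Finset.mul_sum, Finset.mul_sum, Finset.sum_mul, ← Finset.sum_add_distrib,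
    ← Finset.sum_add_distrib]
  apply Finset.sum_congr rfl
  intro i _
  have h1 : pd i (fun y => f y * g y) =ᶠ[𝓝 x] fun y => f y * pd i g y + pd i f y * g y := by
    filter_upwards [eventually_diff hf, eventually_diff hg] with y h1 h2
    exact pd_mul h1 h2
  rw [pd_congr h1]
  have hfd : DifferentiableAt ℝ f x := hf.differentiableAt (by norm_num)
  have hgd : DifferentiableAt ℝ g x := hg.differentiableAt (by norm_num)
  have hpf : DifferentiableAt ℝ (pd i f) x :=
    (contDiffAt_pd (m := 1) (n := 2) hf (by norm_num)).differentiableAt (by norm_num)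
  have hpg : DifferentiableAt ℝ (pd i g) x :=
    (contDiffAt_pd (m := 1) (n := 2) hg (by norm_num)).differentiableAt (by norm_num)
  have h2 : pd i (fun y => f y * pd i g y + pd i f y * g y) x
      = pd i (fun y => f y * pd i g y) x + pd i (fun y => pd i f y * g y) x := by
    unfold pd
    rw [fderiv_fun_add]
    · rfl
    · exact hfd.mul hpg
    · exact hpf.mul hgd
  rw [h2, pd_mul hfd hpg, pd_mul hpf hgd]
  ring

/-- `N x = ‖x‖²` -/
noncomputable def N (x : E d) : ℝ := ‖x‖ ^ 2

theorem contDiff_N : ContDiff ℝ (⊤ : ℕ∞) (N : E d → ℝ) := by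
  unfold N
  exact contDiff_norm_sq ℝ

theorem hasFDerivAt_N (x : E d) : HasFDerivAt (N : E d → ℝ) (2 • innerSL ℝ x) x := by
  unfold N
  exact (hasStrictFDerivAt_norm_sq x).hasFDerivAt

theorem N_pos {x : E d} (hx : x ≠ 0) : 0 < N x := by unfold N; positivity

theorem pd_comp_N {i : Fin d} {b : ℝ → ℝ} {x : E d} (hb : DifferentiableAt ℝ b (N x)) :
    pd i (fun y => b (N y)) x = 2 * deriv b (N x) * x i := by
  unfold pd
  have h := hb.hasDerivAt.comp_hasFDerivAt x (hasFDerivAt_N x)
  have h' : HasFDerivAt (fun y => b (N y)) (deriv b (N x) • (2 • innerSL ℝ x)) x := h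
  rw [h'.fderiv]
  simp [EuclideanSpace.inner_single_right]
  ring

theorem pd_coord (i j : Fin d) (x : E d) : pd i (fun y : E d => y j) x = if j = i then 1 else 0 := by
  unfold pd
  have : HasFDerivAt (fun y : E d => y j) (EuclideanSpace.proj j : E d →L[ℝ] ℝ) x :=
    (EuclideanSpace.proj j : E d →L[ℝ] ℝ).hasFDerivAt
  rw [this.fderiv]
  simp [Pi.single_apply]

theorem N_eq (x : E d) : N x = ∑ i, x i ^ 2 := by
  unfold N
  rw [EuclideanSpace.norm_sq_eq]
  simp

theorem sum_coord_pd (f : E d → ℝ) (x : E d) : ∑ i, x i * pd i f x = fderiv ℝ f x x := by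
  unfold pd
  have hx : x = ∑ i, x i • (EuclideanSpace.single i (1 : ℝ) : E d) := by
    ext j
    simp [Finset.sum_apply, Pi.single_apply]
  have h := congrArg (fun z => fderiv ℝ f x z) hx
  simp only [map_sum, map_smul, smul_eq_mul] at h
  exact h.symm

theorem contDiffAt_deriv {b : ℝ → ℝ} {s : ℝ} (hb : ContDiffAt ℝ 2 b s) :
    ContDiffAt ℝ 1 (deriv b) s := by
  have h1 : ContDiffAt ℝ 1 (fun s => fderiv ℝ b s 1) s :=
    (hb.fderiv_right (m := 1) (by norm_num)).clm_apply contDiffAt_const
  exact h1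

theorem lap_comp_N {b : ℝ → ℝ} {x : E d} (hb : ContDiffAt ℝ 2 b (N x)) :
    lap (fun y => b (N y)) x
      = 4 * N x * deriv (deriv b) (N x) + 2 * d * deriv b (N x) := by
  have hNc : ContinuousAt (N : E d → ℝ) x := (contDiff_N (d := d)).continuous.continuousAt
  have hev : ∀ᶠ y in 𝓝 x, DifferentiableAt ℝ b (N y) := by
    have h := hb.eventually (by simp)
    exact (hNc.eventually h).mono fun y hy => hy.differentiableAt (by norm_num)
  have hb' : DifferentiableAt ℝ (deriv b) (N x) :=
    (contDiffAt_deriv hb).differentiableAt (by norm_num)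
  have hterm : ∀ i : Fin d, pd i (pd i (fun y => b (N y))) x
      = 2 * deriv b (N x) + 4 * deriv (deriv b) (N x) * x i ^ 2 := by
    intro i
    have h1 : pd i (fun y => b (N y)) =ᶠ[𝓝 x] fun y => (2 * deriv b (N y)) * y i := by
      filter_upwards [hev] with y hy
      rw [pd_comp_N hy]
    rw [pd_congr h1]
    have hc : DifferentiableAt ℝ (fun s => 2 * deriv b s) (N x) := hb'.const_mul 2
    have h2 : DifferentiableAt ℝ (fun y : E d => 2 * deriv b (N y)) x :=
      DifferentiableAt.comp (g := fun s => 2 * deriv b s) x hc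
        (hasFDerivAt_N x).differentiableAt
    have h3 : DifferentiableAt ℝ (fun y : E d => y i) x :=
      (EuclideanSpace.proj i : E d →L[ℝ] ℝ).differentiableAt
    rw [pd_mul h2 h3, pd_coord, pd_comp_N (b := fun s => 2 * deriv b s) hc, deriv_const_mul _ hb']
    simp
    ring
  unfold lap
  rw [Finset.sum_congr rfl (fun i _ => hterm i), Finset.sum_add_distrib, ← Finset.mul_sum,
    ← Finset.mul_sum, ← N_eq]
  simp
  ring

theorem sum_pd_N {b : ℝ → ℝ} {f : E d → ℝ} {x : E d} (hb : DifferentiableAt ℝ b (N x)) :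
    ∑ i, pd i (fun y => b (N y)) x * pd i f x = 2 * deriv b (N x) * fderiv ℝ f x x := by
  rw [← sum_coord_pd, Finset.mul_sum]
  apply Finset.sum_congr rfl
  intro i _
  rw [pd_comp_N hb]; ring

/-- Laplacian of a radial function times a function satisfying Euler's relation at `x`. -/
theorem lap_radial_mul {b : ℝ → ℝ} {f : E d → ℝ} {x : E d} {l : ℝ}
    (hb : ContDiffAt ℝ 2 b (N x)) (hf : ContDiffAt ℝ 2 f x) (he : fderiv ℝ f x x = l * f x) :
    lap (fun y => b (N y) * f y) x
      = b (N x) * lap f x + (4 * l * deriv b (N x) + 4 * N x * deriv (deriv b) (N x)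
        + 2 * d * deriv b (N x)) * f x := by
  have hbN : ContDiffAt ℝ 2 (fun y : E d => b (N y)) x :=
    ContDiffAt.comp (g := b) x hb ((contDiff_N (d := d)).contDiffAt.of_le two_le_top)
  rw [lap_mul hbN hf, sum_pd_N (hb.differentiableAt (by norm_num)), lap_comp_N hb, he]
  ring

/-- Green's identity for compactly supported functions. -/
theorem green {u v : E d → ℝ} (hu : ContDiff ℝ (⊤ : ℕ∞) u) (hv : ContDiff ℝ (⊤ : ℕ∞) v)
    (hcu : HasCompactSupport u) (hcv : HasCompactSupport v) :
    ∫ x, u x * lap v x = ∫ x, v x * lap u x := by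
  have hpd : ∀ {f : E d → ℝ}, ContDiff ℝ (⊤ : ℕ∞) f → ∀ i, ContDiff ℝ (⊤ : ℕ∞) (pd i f) := by
    intro f hf i
    unfold pd
    exact (hf.fderiv_right (by simp)).clm_apply contDiff_const
  have hcs : ∀ {f : E d → ℝ}, HasCompactSupport f → ∀ i, HasCompactSupport (pd i f) := by
    intro f hf i
    unfold pd
    exact (hf.fderiv ℝ).comp_left (g := fun L : E d →L[ℝ] ℝ => L (EuclideanSpace.single i 1))
      (by simp)
  have key : ∀ {f g : E d → ℝ}, ContDiff ℝ (⊤ : ℕ∞) f → ContDiff ℝ (⊤ : ℕ∞) g →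
      HasCompactSupport f → HasCompactSupport g → ∀ i,
      ∫ x, f x * pd i (pd i g) x = - ∫ x, pd i f x * pd i g x := by
    intro f g hf hg hcf hcg i
    have i1 : Integrable (fun x => fderiv ℝ f x (EuclideanSpace.single i 1) * pd i g x) := by
      have hc : Continuous (fun x => pd i f x * pd i g x) :=
        (hpd hf i).continuous.mul (hpd hg i).continuous
      exact hc.integrable_of_hasCompactSupport ((hcs hcf i).mul_right)
    have i2 : Integrable (fun x => f x * fderiv ℝ (pd i g) x (EuclideanSpace.single i 1)) := by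
      have hc : Continuous (fun x => f x * pd i (pd i g) x) :=
        hf.continuous.mul (hpd (hpd hg i) i).continuous
      exact hc.integrable_of_hasCompactSupport (hcf.mul_right)
    have i3 : Integrable (fun x => f x * pd i g x) :=
      (hf.continuous.mul (hpd hg i).continuous).integrable_of_hasCompactSupport (hcf.mul_right)
    exact integral_mul_fderiv_eq_neg_fderiv_mul_of_integrable i1 i2 i3
      (fun x _ => hf.differentiable (by simp) x) (fun x _ => (hpd hg i).differentiable (by simp) x)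
  have hint : ∀ {f g : E d → ℝ}, ContDiff ℝ (⊤ : ℕ∞) f → ContDiff ℝ (⊤ : ℕ∞) g →
      HasCompactSupport f → ∀ i, Integrable (fun x => f x * pd i (pd i g) x) := by
    intro f g hf hg hcf i
    exact (hf.continuous.mul (hpd (hpd hg i) i).continuous).integrable_of_hasCompactSupport
      (hcf.mul_right)
  have e1 : ∀ {f g : E d → ℝ}, ContDiff ℝ (⊤ : ℕ∞) f → ContDiff ℝ (⊤ : ℕ∞) g →
      HasCompactSupport f → HasCompactSupport g →
      ∫ x, f x * lap g x = ∑ i, - ∫ x, pd i f x * pd i g x := by
    intro f g hf hg hcf hcg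
    unfold lap
    simp_rw [Finset.mul_sum]
    rw [integral_finset_sum _ (fun i _ => hint hf hg hcf i)]
    exact Finset.sum_congr rfl fun i _ => key hf hg hcf hcg i
  rw [e1 hu hv hcu hcv, e1 hv hu hcv hcu]
  apply Finset.sum_congr rfl
  intro i _
  congr 1
  apply integral_congr_ae
  exact Eventually.of_forall fun x => mul_comm _ _

end Pool.Agent.X154.RP
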