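import Mathlib
import Pool.Agent.X154.RP.A

/-!
Eigenspaces, eigenvalue listings and minimal immersions.
-/

namespace Pool.Agent.X154.RP

open scoped RealInnerProductSpace

variable {d : ℕ}

theorem two_at {F : E d → ℝ} (hF : IsProj F) {x : E d} (hx : x ≠ 0) : ContDiffAt ℝ 2 F x :=
  (hF.2.1.contDiffAt (isOpen_compl_singleton.mem_nhds hx)).of_le two_le_top

theorem contDiffAt_const' {c : ℝ} {x : E d} : ContDiffAt ℝ 2 (fun _ : E d => c) x :=
  contDiffAt_const

theorem pd_const (i : Fin d) (c : ℝ) (x : E d) : pd i (fun _ : E d => c) x = 0 := by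
  unfold pd; simp

theorem lap_const (c : ℝ) (x : E d) : lap (fun _ : E d => c) x = 0 := by
  unfold lap
  apply Finset.sum_eq_zero
  intro i _
  have : pd i (fun _ : E d => c) = fun _ => 0 := funext fun y => pd_const i c y
  rw [this, pd_const]

theorem lap_add {f g : E d → ℝ} {x : E d} (hf : ContDiffAt ℝ 2 f x) (hg : ContDiffAt ℝ 2 g x) :
    lap (fun y => f y + g y) x = lap f x + lap g x := by
  unfold lap
  rw [← Finset.sum_add_distrib]
  apply Finset.sum_congr rfl
  intro i _
  have h1 : pd i (fun y => f y + g y) =ᶠ[nhds x] fun y => pd i f y + pd i g y := by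
    filter_upwards [eventually_diff hf, eventually_diff hg] with y h1 h2
    unfold pd
    rw [fderiv_fun_add h1 h2]; rfl
  have hpf : DifferentiableAt ℝ (pd i f) x :=
    (contDiffAt_pd (m := 1) (n := 2) hf (by norm_num)).differentiableAt (by norm_num)
  have hpg : DifferentiableAt ℝ (pd i g) x :=
    (contDiffAt_pd (m := 1) (n := 2) hg (by norm_num)).differentiableAt (by norm_num)
  rw [pd_congr h1]
  unfold pd at hpf hpg ⊢
  rw [fderiv_fun_add hpf hpg]; rfl

theorem lap_const_mul {f : E d → ℝ} {x : E d} (c : ℝ) (hf : ContDiffAt ℝ 2 f x) :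
    lap (fun y => c * f y) x = c * lap f x := by
  rw [lap_mul contDiffAt_const' hf, lap_const]
  simp [pd_const]

/-- The space of smooth functions `F` on `(RP^{d-1}, ρ g₀)` with `Δ F = -μ F`. -/
def eigenspace (d : ℕ) (ρ μ : ℝ) : Submodule ℝ (E d → ℝ) where
  carrier := {F | IsEig d ρ μ F}
  add_mem' := by
    intro F G hF hG
    refine ⟨⟨?_, hF.1.2.1.add hG.1.2.1, ?_⟩, ?_⟩
    · show F 0 + G 0 = 0
      rw [hF.1.1, hG.1.1, add_zero]
    · intro t ht x
      show F (t • x) + G (t • x) = F x + G x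
      rw [hF.1.2.2 t ht x, hG.1.2.2 t ht x]
    · intro x hx
      have h1 := hF.2 x hx
      have h2 := hG.2 x hx
      have h3 : lap (F + G) x = lap F x + lap G x := lap_add (two_at hF.1 hx) (two_at hG.1 hx)
      unfold lapRP at *
      rw [h3]
      show _ = -μ * (F x + G x)
      linear_combination h1 + h2
  zero_mem' := by
    refine ⟨⟨rfl, contDiffOn_const, fun t ht x => rfl⟩, ?_⟩
    intro x hx
    have h3 : lap (0 : E d → ℝ) x = 0 := lap_const 0 x
    unfold lapRP
    rw [h3]
    simp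
  smul_mem' := by
    intro c F hF
    refine ⟨⟨?_, hF.1.2.1.const_smul c, ?_⟩, ?_⟩
    · show c * F 0 = 0
      rw [hF.1.1, mul_zero]
    · intro t ht x
      show c * F (t • x) = c * F x
      rw [hF.1.2.2 t ht x]
    · intro x hx
      have h1 := hF.2 x hx
      have h3 : lap (c • F) x = c * lap F x := lap_const_mul c (two_at hF.1 hx)
      unfold lapRP at *
      rw [h3]
      show _ = -μ * (c * F x)
      linear_combination c * h1

/-- `lam 0 ≤ lam 1 ≤ …` lists the eigenvalues of `-Δ` on `(RP^{d-1}, ρ g₀)`, each one repeated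
according to its (finite) multiplicity. -/
def IsListing (d : ℕ) (ρ : ℝ) (lam : ℕ → ℝ) : Prop :=
  Monotone lam ∧ ∀ μ : ℝ, Module.Finite ℝ (eigenspace d ρ μ) ∧ {i | lam i = μ}.Finite ∧
    Module.finrank ℝ (eigenspace d ρ μ) = {i | lam i = μ}.ncard

/-- `φ` is a minimal immersion of `(RP^{d-1}, ρ g₀)` into the unit sphere of `ℝ^ι`: a smooth map of
`RP^{d-1}` into the unit sphere whose induced metric is `ρ g₀` (so it is an immersion), with
vanishing mean curvature vector; for an isometric immersion `φ` of an `n`-manifold into the unit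
sphere (here `n = d - 1`) the mean curvature vector is `(Δ φ + n φ)/n`. -/
structure IsMinimalImmersion (d : ℕ) (ι : Type) [Fintype ι] (ρ : ℝ)
    (φ : E d → EuclideanSpace ℝ ι) : Prop where
  proj : ∀ a, IsProj (fun x => φ x a)
  sphere : ∀ x, x ≠ 0 → ‖φ x‖ = 1
  isometric : ∀ x, ‖x‖ = 1 → ∀ u v : E d, ⟪x, u⟫ = 0 → ⟪x, v⟫ = 0 →
    ⟪fderiv ℝ φ x u, fderiv ℝ φ x v⟫ = ρ * ⟪u, v⟫
  minimal : ∀ a, ∀ x, x ≠ 0 → lapRP ρ (fun y => φ y a) x + ((d : ℝ) - 1) * φ x a = 0

end Pool.Agent.X154.RP
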