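import Mathlib
import Pool.Agent.X154.RP.A

namespace Pool.Agent.X154.RP

open Filter Topology MeasureTheory

variable {d : ℕ}

/-- the bump -/
noncomputable def bump : ContDiffBump (5 / 2 : ℝ) := ⟨1, 3 / 2, by norm_num, by norm_num⟩

/-- the cut-off profile -/
noncomputable def chi (s : ℝ) : ℝ := bump s

theorem contDiff_chi : ContDiff ℝ (⊤ : ℕ∞) chi := bump.contDiff

theorem chi_zero_of_le {s : ℝ} (h : s ≤ 1) : chi s = 0 := by
  unfold chi
  apply bump.zero_of_le_dist
  rw [Real.dist_eq, abs_of_nonpos (by linarith)]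
  show (3 / 2 : ℝ) ≤ _
  linarith

theorem chi_zero_of_ge {s : ℝ} (h : 4 ≤ s) : chi s = 0 := by
  unfold chi
  apply bump.zero_of_le_dist
  rw [Real.dist_eq, abs_of_nonneg (by linarith)]
  show (3 / 2 : ℝ) ≤ _
  linarith

theorem chi_pos {s : ℝ} (h1 : 1 < s) (h2 : s < 4) : 0 < chi s := by
  unfold chi
  apply bump.pos_of_mem_ball
  rw [Metric.mem_ball, Real.dist_eq, abs_lt]
  show -(3 / 2 : ℝ) < _ ∧ _ < (3 / 2 : ℝ)
  constructor <;> linarith

theorem cut_eventually (H : E d → ℝ) :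
    (fun x : E d => chi (N x) * H x) =ᶠ[𝓝 0] fun _ => 0 := by
  have hc : Continuous (N : E d → ℝ) := (contDiff_N (d := d)).continuous
  have h0 : N (0 : E d) < 1 := by unfold N; simp
  have h : ∀ᶠ y in 𝓝 (0 : E d), N y < 1 := hc.continuousAt.eventually_lt continuousAt_const h0
  filter_upwards [h] with y hy
  rw [chi_zero_of_le hy.le, zero_mul]

theorem cut_contDiff {H : E d → ℝ} (hH : ContDiffOn ℝ (⊤ : ℕ∞) H {0}ᶜ) :
    ContDiff ℝ (⊤ : ℕ∞) (fun x : E d => chi (N x) * H x) := by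
  rw [contDiff_iff_contDiffAt]
  intro x
  by_cases hx : x = 0
  · subst hx
    exact contDiffAt_const.congr_of_eventuallyEq (cut_eventually H)
  · have h1 : ContDiffAt ℝ (⊤ : ℕ∞) (fun x : E d => chi (N x)) x :=
      (contDiff_chi.comp contDiff_N).contDiffAt
    have h2 : ContDiffAt ℝ (⊤ : ℕ∞) H x := hH.contDiffAt (isOpen_compl_singleton.mem_nhds hx)
    exact h1.mul h2

theorem cut_continuous {H : E d → ℝ} (hH : ContinuousOn H {0}ᶜ) :
    Continuous (fun x : E d => chi (N x) * H x) := by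
  rw [continuous_iff_continuousAt]
  intro x
  by_cases hx : x = 0
  · subst hx
    exact continuousAt_const.congr (cut_eventually H).symm
  · have h1 : ContinuousAt (fun x : E d => chi (N x)) x :=
      (contDiff_chi.comp contDiff_N).continuous.continuousAt
    exact h1.mul (hH.continuousAt (isOpen_compl_singleton.mem_nhds hx))

theorem cut_compact (H : E d → ℝ) : HasCompactSupport (fun x : E d => chi (N x) * H x) := by
  apply HasCompactSupport.intro (isCompact_closedBall (0 : E d) 2)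
  intro x hx
  rw [mem_closedBall_zero_iff, not_le] at hx
  have : 4 ≤ N x := by unfold N; nlinarith
  rw [chi_zero_of_ge this, zero_mul]

theorem cut_integrable {H : E d → ℝ} (hH : ContinuousOn H {0}ᶜ) :
    Integrable (fun x : E d => chi (N x) * H x) :=
  (cut_continuous hH).integrable_of_hasCompactSupport (cut_compact H)

/-- homogeneity of degree `l` -/
def Hom (l : ℕ) (p : E d → ℝ) : Prop := ∀ t : ℝ, t ≠ 0 → ∀ x, p (t • x) = t ^ l * p x

theorem euler {l : ℕ} {p : E d → ℝ} (hp : Hom l p) {x : E d} (hd : DifferentiableAt ℝ p x) :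
    fderiv ℝ p x x = l * p x := by
  have h1 : HasDerivAt (fun t : ℝ => p (t • x)) (fderiv ℝ p x x) 1 := by
    have hg : HasDerivAt (fun t : ℝ => t • x) ((1 : ℝ) • x) 1 := (hasDerivAt_id 1).smul_const x
    have hf : HasFDerivAt p (fderiv ℝ p x) ((1 : ℝ) • x) := by rw [one_smul]; exact hd.hasFDerivAt
    have := hf.comp_hasDerivAt (1 : ℝ) hg
    rw [one_smul] at this
    exact this
  have h2 : HasDerivAt (fun t : ℝ => t ^ l * p x) ((l : ℝ) * (1 : ℝ) ^ (l - 1) * p x) 1 :=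
    (hasDerivAt_pow l 1).mul_const _
  have h3 : (fun t : ℝ => p (t • x)) =ᶠ[𝓝 1] fun t => t ^ l * p x := by
    filter_upwards [isOpen_ne.mem_nhds (show (1 : ℝ) ≠ 0 by norm_num)] with t ht
    exact hp t ht x
  have h4 := (h2.congr_of_eventuallyEq h3).unique h1
  rw [← h4]; simp

theorem hom_pd {l : ℕ} {p : E d → ℝ} (hp : Hom (l + 1) p) (hd : Differentiable ℝ p) (i : Fin d) :
    Hom l (pd i p) := by
  intro t ht x
  unfold pd
  have h1 : HasFDerivAt (fun y : E d => p (t • y)) ((fderiv ℝ p (t • x)).comp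
      (t • ContinuousLinearMap.id ℝ (E d))) x := by
    have hg : HasFDerivAt (fun y : E d => t • y) (t • ContinuousLinearMap.id ℝ (E d)) x :=
      (hasFDerivAt_id x).const_smul t
    exact (hd (t • x)).hasFDerivAt.comp x hg
  have h2 : HasFDerivAt (fun y : E d => t ^ (l + 1) * p y) (t ^ (l + 1) • fderiv ℝ p x) x :=
    (hd x).hasFDerivAt.const_mul _
  have h3 : (fun y : E d => p (t • y)) = fun y => t ^ (l + 1) * p y := funext fun y => hp t ht y
  rw [h3] at h1
  have h4 := congrArg (fun L : E d →L[ℝ] ℝ => L (EuclideanSpace.single i 1)) (h1.unique h2)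
  simp only [ContinuousLinearMap.comp_apply, ContinuousLinearMap.smul_apply,
    ContinuousLinearMap.id_apply, map_smul, smul_eq_mul] at h4
  apply mul_left_cancel₀ ht
  rw [h4]; ring

theorem contDiff_pd {f : E d → ℝ} (hf : ContDiff ℝ (⊤ : ℕ∞) f) (i : Fin d) :
    ContDiff ℝ (⊤ : ℕ∞) (pd i f) := by
  unfold pd
  exact (hf.fderiv_right (by simp)).clm_apply contDiff_const

theorem contDiff_lap {f : E d → ℝ} (hf : ContDiff ℝ (⊤ : ℕ∞) f) : ContDiff ℝ (⊤ : ℕ∞) (lap f) := by
  unfold lap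
  exact ContDiff.sum fun i _ => contDiff_pd (contDiff_pd hf i) i

theorem hom_lap {l : ℕ} {p : E d → ℝ} (hp : Hom (l + 2) p) (hd : ContDiff ℝ (⊤ : ℕ∞) p) :
    Hom l (lap p) := by
  intro t ht x
  unfold lap
  rw [Finset.mul_sum]
  apply Finset.sum_congr rfl
  intro i _
  exact hom_pd (hom_pd hp (hd.differentiable (by simp)) i)
    ((contDiff_pd hd i).differentiable (by simp)) i t ht x

theorem continuousOn_lap {f : E d → ℝ} (hf : ContDiffOn ℝ (⊤ : ℕ∞) f {0}ᶜ) :
    ContinuousOn (lap f) {0}ᶜ := by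
  intro x hx
  apply ContinuousAt.continuousWithinAt
  have hx' : x ≠ 0 := hx
  have h := hf.contDiffAt (isOpen_compl_singleton.mem_nhds hx')
  unfold lap
  apply tendsto_finsetSum
  intro i _
  have h2 : ContDiffAt ℝ 2 f x := h.of_le two_le_top
  have h3 : ContDiffAt ℝ (1 : ℕ∞) (pd i f) x := contDiffAt_pd (m := 1) (n := 2) h2 (by norm_num)
  have h4 : ContDiffAt ℝ (0 : ℕ∞) (pd i (pd i f)) x :=
    contDiffAt_pd (m := 0) (n := 1) h3 (by norm_num)
  exact h4.continuousAt

theorem selfadj {F G : E d → ℝ} (hF : ContDiffOn ℝ (⊤ : ℕ∞) F {0}ᶜ) (hF0 : Hom 0 F)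
    (hG : ContDiffOn ℝ (⊤ : ℕ∞) G {0}ᶜ) (hG0 : Hom 0 G) :
    ∫ x, chi (N x) * (chi (N x) * (F x * lap G x - G x * lap F x)) = 0 := by
  have hu := cut_contDiff hF
  have hv := cut_contDiff hG
  have hg := green hu hv (cut_compact F) (cut_compact G)
  have hi1 : Integrable (fun x => (chi (N x) * F x) * lap (fun y => chi (N y) * G y) x) :=
    (hu.continuous.mul (contDiff_lap hv).continuous).integrable_of_hasCompactSupport
      ((cut_compact F).mul_right)
  have hi2 : Integrable (fun x => (chi (N x) * G x) * lap (fun y => chi (N y) * F y) x) :=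
    (hv.continuous.mul (contDiff_lap hu).continuous).integrable_of_hasCompactSupport
      ((cut_compact G).mul_right)
  have hsub := integral_sub hi1 hi2
  rw [hg, sub_self] at hsub
  rw [← hsub]
  apply integral_congr_ae
  refine Eventually.of_forall fun x => ?_
  by_cases hx : x = 0
  · subst hx
    have : chi (N (0 : E d)) = 0 := chi_zero_of_le (by unfold N; simp)
    simp [this]
  · have key : ∀ {H : E d → ℝ}, ContDiffOn ℝ (⊤ : ℕ∞) H {0}ᶜ → Hom 0 H →
        lap (fun y => chi (N y) * H y) x = chi (N x) * lap H x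
          + (4 * N x * deriv (deriv chi) (N x) + 2 * d * deriv chi (N x)) * H x := by
      intro H hH hH0
      have h1 := hH.contDiffAt (isOpen_compl_singleton.mem_nhds hx)
      have h2 : ContDiffAt ℝ 2 H x := h1.of_le two_le_top
      have he := euler hH0 (h2.differentiableAt (by norm_num))
      have h3 := lap_radial_mul (l := 0) (contDiff_chi.contDiffAt.of_le two_le_top) h2
        (by simpa using he)
      rw [h3]; ring
    simp only
    rw [key hF hF0, key hG hG0]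
    ring

/-- The function `N^{-m} p`. -/
noncomputable def G (m : ℕ) (p : E d → ℝ) (x : E d) : ℝ := N x ^ (-(m : ℤ)) * p x

theorem contDiffAt_zpow' (k : ℤ) {n : WithTop ℕ∞} {s : ℝ} (hs : s ≠ 0) :
    ContDiffAt ℝ n (fun s : ℝ => s ^ k) s := by
  rcases k with k | k
  · have : (fun s : ℝ => s ^ (Int.ofNat k)) = fun s => s ^ k := by
      funext s; exact zpow_natCast s k
    rw [this]
    exact contDiffAt_id.pow k
  · have : (fun s : ℝ => s ^ (Int.negSucc k)) = fun s => (s ^ (k + 1))⁻¹ := by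
      funext s; exact zpow_negSucc s k
    rw [this]
    exact (contDiffAt_id.pow (k + 1)).inv (pow_ne_zero _ hs)

theorem contDiffOn_zpowN (k : ℤ) : ContDiffOn ℝ (⊤ : ℕ∞) (fun x : E d => N x ^ k) {0}ᶜ := by
  intro x hx
  have hx' : x ≠ 0 := hx
  apply ContDiffAt.contDiffWithinAt
  have h : ContDiffAt ℝ (⊤ : ℕ∞) (N : E d → ℝ) x := contDiff_N.contDiffAt
  exact ContDiffAt.comp (g := fun s : ℝ => s ^ k) x (contDiffAt_zpow' k (N_pos hx').ne') h

theorem N_smul (t : ℝ) (x : E d) : N (t • x) = t ^ 2 * N x := by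
  unfold N
  rw [norm_smul, mul_pow, Real.norm_eq_abs, sq_abs]

theorem hom_G {m : ℕ} {p : E d → ℝ} (hp : Hom (2 * m) p) : Hom 0 (G m p) := by
  intro t ht x
  unfold G
  rw [N_smul, hp t ht x, mul_zpow, pow_zero, one_mul]
  have : (t ^ 2) ^ (-(m : ℤ)) * t ^ (2 * m) = 1 := by
    rw [zpow_neg, zpow_natCast, ← pow_mul]
    exact inv_mul_cancel₀ (pow_ne_zero _ ht)
  calc (t ^ 2) ^ (-(m : ℤ)) * N x ^ (-(m : ℤ)) * (t ^ (2 * m) * p x)
      = ((t ^ 2) ^ (-(m : ℤ)) * t ^ (2 * m)) * (N x ^ (-(m : ℤ)) * p x) := by ring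
    _ = _ := by rw [this, one_mul]

theorem lap_G {m : ℕ} {p : E d → ℝ} (hp : Hom (2 * m) p) (hd : ContDiff ℝ (⊤ : ℕ∞) p)
    {x : E d} (hx : x ≠ 0) :
    lap (G m p) x = N x ^ (-(m : ℤ)) * lap p x
      - 2 * m * (2 * m + d - 2) * (N x ^ (-(m : ℤ) - 1) * p x) := by
  have hN := N_pos hx
  have hb : ContDiffAt ℝ 2 (fun s : ℝ => s ^ (-(m : ℤ))) (N x) := contDiffAt_zpow' _ hN.ne'
  have he := euler hp ((hd.differentiable (by simp)) x)
  have h := lap_radial_mul (l := ((2 * m : ℕ) : ℝ)) hb (hd.contDiffAt.of_le two_le_top) he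
  have hd1 : deriv (fun s : ℝ => s ^ (-(m : ℤ))) = fun s => ((-(m : ℤ) : ℤ) : ℝ) * s ^ (-(m : ℤ) - 1) := by
    funext s
    exact deriv_zpow _ _
  have hd2 : deriv (fun s : ℝ => ((-(m : ℤ) : ℤ) : ℝ) * s ^ (-(m : ℤ) - 1)) (N x)
      = ((-(m : ℤ) : ℤ) : ℝ) * (((-(m : ℤ) - 1 : ℤ) : ℝ) * N x ^ (-(m : ℤ) - 1 - 1)) := by
    rw [deriv_const_mul_field, deriv_zpow]
  rw [hd1] at h
  simp only at h
  rw [hd2] at h
  have hz : N x ^ (-(m : ℤ) - 1 - 1) * N x = N x ^ (-(m : ℤ) - 1) := by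
    rw [zpow_sub_one₀ hN.ne' (-(m : ℤ) - 1)]
    field_simp
  have hG : (G m p : E d → ℝ) = fun y => N y ^ (-(m : ℤ)) * p y := rfl
  rw [hG, h, ← hz]
  push_cast
  ring

end Pool.Agent.X154.RP
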