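import Mathlib
import Pool.Agent.X154.RP.B

namespace Pool.Agent.X154.RP

open Filter Topology MeasureTheory

variable {d : ℕ}

/-- the weighted pairing of `F` with `N^{-m} p`. -/
noncomputable def Im (F : E d → ℝ) (m : ℕ) (p : E d → ℝ) : ℝ :=
  ∫ x, chi (N x) * (chi (N x) * (F x * (N x ^ (-(m : ℤ) - 1) * p x)))

theorem IsProj.hom {F : E d → ℝ} (hF : IsProj F) : Hom 0 F := by
  intro t ht x
  rw [pow_zero, one_mul]
  exact hF.2.2 t ht x

theorem continuousOn_chiN : ContinuousOn (fun x : E d => chi (N x)) {0}ᶜ :=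
  (contDiff_chi.comp contDiff_N).continuous.continuousOn

theorem int_aux {H : E d → ℝ} (hH : ContinuousOn H {0}ᶜ) :
    Integrable (fun x : E d => chi (N x) * (chi (N x) * H x)) :=
  cut_integrable (continuousOn_chiN.mul hH)

theorem step {F : E d → ℝ} (hF : IsProj F) {κ : ℝ}
    (hE : ∀ x, x ≠ 0 → ‖x‖ ^ 2 * lap F x = -κ * F x) {m : ℕ} {p : E d → ℝ}
    (hp : Hom (2 * m) p) (hd : ContDiff ℝ (⊤ : ℕ∞) p) :
    (∫ x, chi (N x) * (chi (N x) * (F x * (N x ^ (-(m : ℤ)) * lap p x))))
      + (κ - 2 * m * (2 * m + d - 2)) * Im F m p = 0 := by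
  have hFc : ContinuousOn F {0}ᶜ := hF.2.1.continuousOn
  have hGs : ContDiffOn ℝ (⊤ : ℕ∞) (G m p) {0}ᶜ := (contDiffOn_zpowN _).mul hd.contDiffOn
  have h := selfadj hF.2.1 hF.hom hGs (hom_G hp)
  have i1 : Integrable (fun x => chi (N x) * (chi (N x) * (F x * (N x ^ (-(m : ℤ)) * lap p x)))) :=
    int_aux (hFc.mul ((contDiffOn_zpowN _).continuousOn.mul (contDiff_lap hd).continuous.continuousOn))
  have i2 : Integrable (fun x => chi (N x) * (chi (N x) * (F x * (N x ^ (-(m : ℤ) - 1) * p x)))) :=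
    int_aux (hFc.mul ((contDiffOn_zpowN _).continuousOn.mul hd.continuous.continuousOn))
  rw [← h]
  unfold Im
  rw [← integral_const_mul, ← integral_add i1 (i2.const_mul _)]
  apply integral_congr_ae
  refine Eventually.of_forall fun x => ?_
  by_cases hx : x = 0
  · subst hx
    have : chi (N (0 : E d)) = 0 := chi_zero_of_le (by unfold N; simp)
    simp [this]
  · simp only
    have hN := N_pos hx
    rw [lap_G hp hd hx]
    have h1 : lap F x = -κ * F x / N x := by
      rw [eq_div_iff hN.ne', mul_comm]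
      exact hE x hx
    rw [h1]
    unfold G
    have hz : N x ^ (-(m : ℤ) - 1) = N x ^ (-(m : ℤ)) / N x := by
      rw [zpow_sub_one₀ hN.ne']; rfl
    rw [hz]
    field_simp
    ring

theorem Im_zero {F : E d → ℝ} (hF : IsProj F) {κ : ℝ}
    (hE : ∀ x, x ≠ 0 → ‖x‖ ^ 2 * lap F x = -κ * F x)
    (hκ : ∀ m : ℕ, κ ≠ 2 * m * (2 * m + d - 2)) (m : ℕ) :
    ∀ p : E d → ℝ, Hom (2 * m) p → ContDiff ℝ (⊤ : ℕ∞) p → Im F m p = 0 := by
  induction m with
  | zero =>
    intro p hp hd
    have hconst : p = fun _ => p 0 := by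
      funext x
      have h1 : Tendsto (fun t : ℝ => p (t • x)) (𝓝[≠] 0) (𝓝 (p ((0 : ℝ) • x))) := by
        have hc : Continuous fun t : ℝ => p (t • x) := hd.continuous.comp (by fun_prop)
        exact (hc.tendsto 0).mono_left nhdsWithin_le_nhds
      have h2 : Tendsto (fun t : ℝ => p (t • x)) (𝓝[≠] 0) (𝓝 (p x)) := by
        refine tendsto_const_nhds.congr' ?_
        filter_upwards [self_mem_nhdsWithin] with t ht
        have := hp t ht x
        simp at this
        exact this.symm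
      have h3 := tendsto_nhds_unique h2 h1
      rw [zero_smul] at h3
      exact h3
    have hl : ∀ x, lap p x = 0 := by
      intro x
      rw [hconst]
      unfold lap
      apply Finset.sum_eq_zero
      intro i _
      have : pd i (fun _ : E d => p 0) = fun _ => 0 := by
        funext y; unfold pd; simp
      rw [this]
      unfold pd; simp
    have h := step hF hE hp hd
    simp only [hl, mul_zero, integral_zero, zero_add] at h
    exact (mul_eq_zero.1 h).resolve_left (sub_ne_zero.2 (hκ 0))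
  | succ m ih =>
    intro p hp hd
    have hp2 : Hom (2 * m + 2) p := by
      have : 2 * (m + 1) = 2 * m + 2 := by ring
      rwa [this] at hp
    have h := step hF hE hp hd
    have hI := ih (lap p) (hom_lap hp2 hd) (contDiff_lap hd)
    unfold Im at hI
    have hz : (-((m + 1 : ℕ) : ℤ)) = -(m : ℤ) - 1 := by push_cast; ring
    rw [hz, hI, zero_add] at h
    exact (mul_eq_zero.1 h).resolve_left (sub_ne_zero.2 (hκ (m + 1)))

/-- the unit sphere -/
abbrev Sph (d : ℕ) := Metric.sphere (0 : E d) 1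

theorem unit_mem {x : E d} (hx : x ≠ 0) : ‖x‖⁻¹ • x ∈ Metric.sphere (0 : E d) 1 := by
  rw [mem_sphere_zero_iff_norm, norm_smul, norm_inv, norm_norm]
  exact inv_mul_cancel₀ (norm_ne_zero_iff.2 hx)

/-- coordinate functions on the sphere -/
noncomputable def coord (i : Fin d) : C(Sph d, ℝ) := ⟨fun y => y.1 i, by fun_prop⟩

/-- `g` is given by a function whose weighted pairing with `F` vanishes. -/
def Q (F : E d → ℝ) (g : C(Sph d, ℝ)) : Prop :=
  ∃ h : E d → ℝ, ContinuousOn h {0}ᶜ ∧ (∀ x (hx : x ≠ 0), h x = g ⟨‖x‖⁻¹ • x, unit_mem hx⟩) ∧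
    ∫ x, chi (N x) * (chi (N x) * (F x * ((N x)⁻¹ * h x))) = 0

theorem Q_of_hom {F : E d → ℝ} (hF : IsProj F)
    (hI : ∀ (m : ℕ) (p : E d → ℝ), Hom (2 * m) p → ContDiff ℝ (⊤ : ℕ∞) p → Im F m p = 0)
    {g : C(Sph d, ℝ)} {l : ℕ} {p : E d → ℝ} (hp : Hom l p) (hd : ContDiff ℝ (⊤ : ℕ∞) p)
    (hg : ∀ y : Sph d, g y = p y.1) : Q F g := by
  refine ⟨fun x => (‖x‖⁻¹) ^ l * p x, ?_, ?_, ?_⟩
  · apply ContinuousOn.mul _ hd.continuous.continuousOn
    apply ContinuousOn.pow
    apply ContinuousOn.inv₀ continuous_norm.continuousOn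
    intro x hx
    exact norm_ne_zero_iff.2 hx
  · intro x hx
    rw [hg]
    have := hp (‖x‖⁻¹) (inv_ne_zero (norm_ne_zero_iff.2 hx)) x
    exact this.symm
  · rcases Nat.even_or_odd' l with ⟨m, rfl | rfl⟩
    · rw [← hI m p hp hd]
      unfold Im
      apply integral_congr_ae
      refine Eventually.of_forall fun x => ?_
      by_cases hx : x = 0
      · subst hx
        have : chi (N (0 : E d)) = 0 := chi_zero_of_le (by unfold N; simp)
        simp [this]
      · have hN := N_pos hx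
        have e1 : (‖x‖⁻¹) ^ (2 * m) = N x ^ (-(m : ℤ)) := by
          unfold N
          rw [zpow_neg, zpow_natCast, ← pow_mul, inv_pow]
        simp only
        rw [e1, zpow_sub_one₀ hN.ne']
        ring
    · set J : E d → ℝ := fun x => chi (N x) * (chi (N x) * (F x * ((N x)⁻¹
        * ((‖x‖⁻¹) ^ (2 * m + 1) * p x)))) with hJ
      have hodd : ∀ x, J (-x) = - J x := by
        intro x
        simp only [hJ]
        have hNn : N (-x) = N x := by unfold N; rw [norm_neg]
        have hFn : F (-x) = F x := by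
          have := hF.2.2 (-1) (by norm_num) x
          simpa using this
        have hpn : p (-x) = - p x := by
          have := hp (-1) (by norm_num) x
          simp [pow_succ, pow_mul] at this
          exact this
        rw [hNn, hFn, hpn, norm_neg]
        ring
      have h1 : ∫ x, J (-x) = ∫ x, J x := integral_neg_eq_self J volume
      have h2 : ∫ x, J (-x) = - ∫ x, J x := by
        rw [← integral_neg]
        exact integral_congr_ae (Eventually.of_forall hodd)
      linarith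

theorem Q_add {F : E d → ℝ} (hF : IsProj F) {g g' : C(Sph d, ℝ)} (h : Q F g) (h' : Q F g') :
    Q F (g + g') := by
  obtain ⟨k, hk1, hk2, hk3⟩ := h
  obtain ⟨k', hk1', hk2', hk3'⟩ := h'
  refine ⟨fun x => k x + k' x, hk1.add hk1', ?_, ?_⟩
  · intro x hx
    show k x + k' x = _
    rw [hk2 x hx, hk2' x hx]; rfl
  · have hFc : ContinuousOn F {0}ᶜ := hF.2.1.continuousOn
    have hN : ContinuousOn (fun x : E d => (N x)⁻¹) {0}ᶜ :=
      contDiff_N.continuous.continuousOn.inv₀ fun x hx => (N_pos hx).ne'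
    have i1 : Integrable (fun x : E d => chi (N x) * (chi (N x) * (F x * ((N x)⁻¹ * k x)))) :=
      int_aux (hFc.mul (hN.mul hk1))
    have i2 : Integrable (fun x : E d => chi (N x) * (chi (N x) * (F x * ((N x)⁻¹ * k' x)))) :=
      int_aux (hFc.mul (hN.mul hk1'))
    have : ∫ x, (chi (N x) * (chi (N x) * (F x * ((N x)⁻¹ * k x)))
        + chi (N x) * (chi (N x) * (F x * ((N x)⁻¹ * k' x)))) = 0 := by
      rw [integral_add i1 i2, hk3, hk3']; ring
    rw [← this]
    congr 1
    funext x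
    ring

theorem Q_smul {F : E d → ℝ} {g : C(Sph d, ℝ)} (c : ℝ) (h : Q F g) : Q F (c • g) := by
  obtain ⟨k, hk1, hk2, hk3⟩ := h
  refine ⟨fun x => c * k x, continuousOn_const.mul hk1, ?_, ?_⟩
  · intro x hx
    show c * k x = _
    rw [hk2 x hx]; rfl
  · have : c * ∫ x, chi (N x) * (chi (N x) * (F x * ((N x)⁻¹ * k x))) = 0 := by rw [hk3, mul_zero]
    rw [← this, ← integral_const_mul]
    congr 1
    funext x
    ring

theorem Q_adjoin {F : E d → ℝ} (hF : IsProj F)
    (hI : ∀ (m : ℕ) (p : E d → ℝ), Hom (2 * m) p → ContDiff ℝ (⊤ : ℕ∞) p → Im F m p = 0)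
    {g : C(Sph d, ℝ)} (hg : g ∈ Algebra.adjoin ℝ (Set.range (coord (d := d)))) : Q F g := by
  have hg' : g ∈ Subalgebra.toSubmodule (Algebra.adjoin ℝ (Set.range (coord (d := d)))) := hg
  rw [Algebra.adjoin_eq_span] at hg'
  have hR : ∀ g ∈ Submonoid.closure (Set.range (coord (d := d))), ∃ (l : ℕ) (p : E d → ℝ),
      Hom l p ∧ ContDiff ℝ (⊤ : ℕ∞) p ∧ ∀ y : Sph d, g y = p y.1 := by
    intro g hg
    induction hg using Submonoid.closure_induction with
    | mem g hg =>
      obtain ⟨i, rfl⟩ := hg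
      refine ⟨1, fun x => x i, ?_, ?_, fun y => rfl⟩
      · intro t _ x; simp
      · exact (EuclideanSpace.proj i : E d →L[ℝ] ℝ).contDiff
    | one => exact ⟨0, fun _ => 1, fun t _ x => by simp, contDiff_const, fun y => rfl⟩
    | mul a b _ _ ha hb =>
      obtain ⟨l, p, h1, h2, h3⟩ := ha
      obtain ⟨l', p', h1', h2', h3'⟩ := hb
      refine ⟨l + l', fun x => p x * p' x, ?_, h2.mul h2', ?_⟩
      · intro t ht x
        show p (t • x) * p' (t • x) = t ^ (l + l') * (p x * p' x)
        rw [h1 t ht x, h1' t ht x, pow_add]; ring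
      · intro y
        rw [ContinuousMap.mul_apply, h3, h3']
  clear hg
  induction hg' using Submodule.span_induction with
  | mem g hg =>
    obtain ⟨l, p, h1, h2, h3⟩ := hR g hg
    exact Q_of_hom hF hI h1 h2 h3
  | zero =>
    exact ⟨fun _ => 0, continuousOn_const, fun x hx => rfl, by simp⟩
  | add a b _ _ ha hb => exact Q_add hF ha hb
  | smul c a _ ha => exact Q_smul c ha

theorem eq_zero_of_Im {F : E d → ℝ} (hF : IsProj F)
    (hI : ∀ (m : ℕ) (p : E d → ℝ), Hom (2 * m) p → ContDiff ℝ (⊤ : ℕ∞) p → Im F m p = 0) :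
    ∀ x, F x = 0 := by
  have hFc : ContinuousOn F {0}ᶜ := hF.2.1.continuousOn
  have hN : ContinuousOn (fun x : E d => (N x)⁻¹) {0}ᶜ :=
    contDiff_N.continuous.continuousOn.inv₀ fun x hx => (N_pos hx).ne'
  have hne : ∀ y : Sph d, y.1 ≠ 0 := by
    intro y h
    have := mem_sphere_zero_iff_norm.1 y.2
    rw [h, norm_zero] at this
    exact zero_ne_one this
  set f : C(Sph d, ℝ) := ⟨fun y => F y.1, by
    rw [continuous_iff_continuousAt]
    intro y
    have h1 : ContinuousAt F y.1 := hFc.continuousAt (isOpen_compl_singleton.mem_nhds (hne y))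
    exact h1.comp continuousAt_subtype_val⟩ with hf
  have hsep : (Algebra.adjoin ℝ (Set.range (coord (d := d)))).SeparatesPoints := by
    intro y z hyz
    have : ∃ i, y.1 i ≠ z.1 i := by
      by_contra hcon
      push Not at hcon
      exact hyz (Subtype.ext (by ext i; exact hcon i))
    obtain ⟨i, hi⟩ := this
    exact ⟨coord i, ⟨coord i, Algebra.subset_adjoin ⟨i, rfl⟩, rfl⟩, hi⟩
  set C : ℝ := ∫ x, chi (N x) * (chi (N x) * ((N x)⁻¹ * |F x|)) with hC
  set B : ℝ := ∫ x, chi (N x) * (chi (N x) * (F x * ((N x)⁻¹ * F x))) with hB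
  have iB : Integrable (fun x : E d => chi (N x) * (chi (N x) * (F x * ((N x)⁻¹ * F x)))) :=
    int_aux (hFc.mul (hN.mul hFc))
  have iC : Integrable (fun x : E d => chi (N x) * (chi (N x) * ((N x)⁻¹ * |F x|))) :=
    int_aux (hN.mul hFc.abs)
  have hle : ∀ ε : ℝ, 0 < ε → B ≤ ε * C := by
    intro ε hε
    obtain ⟨g, hg⟩ := ContinuousMap.exists_mem_subalgebra_near_continuousMap_of_separatesPoints
      _ hsep f ε hε
    obtain ⟨h, h1, h2, h3⟩ := Q_adjoin hF hI g.2
    have ih : Integrable (fun x : E d => chi (N x) * (chi (N x) * (F x * ((N x)⁻¹ * h x)))) :=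
      int_aux (hFc.mul (hN.mul h1))
    have hBe : B = ∫ x, (chi (N x) * (chi (N x) * (F x * ((N x)⁻¹ * F x)))
        - chi (N x) * (chi (N x) * (F x * ((N x)⁻¹ * h x)))) := by
      rw [integral_sub iB ih, h3, sub_zero]
    rw [hBe, hC, ← integral_const_mul]
    apply integral_mono (iB.sub ih) (iC.const_mul ε)
    intro x
    by_cases hx : x = 0
    · subst hx
      have : chi (N (0 : E d)) = 0 := chi_zero_of_le (by unfold N; simp)
      simp [this]
    · simp only
      have hNp := N_pos hx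
      have e1 : F x = f ⟨‖x‖⁻¹ • x, unit_mem hx⟩ := by
        have := hF.2.2 (‖x‖⁻¹) (inv_ne_zero (norm_ne_zero_iff.2 hx)) x
        rw [hf]; exact this.symm
      have e2 : |F x - h x| ≤ ε := by
        rw [e1, h2 x hx]
        have h5 := (g.1 - f).norm_coe_le_norm ⟨‖x‖⁻¹ • x, unit_mem hx⟩
        rw [ContinuousMap.sub_apply, Real.norm_eq_abs] at h5
        rw [abs_sub_comm]
        exact h5.trans hg.le
      have hi : 0 < (N x)⁻¹ := inv_pos.2 hNp
      have hc2 : 0 ≤ chi (N x) * chi (N x) := mul_self_nonneg _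
      have e3 : F x * (F x - h x) ≤ |F x| * ε := by
        calc F x * (F x - h x) ≤ |F x * (F x - h x)| := le_abs_self _
          _ = |F x| * |F x - h x| := abs_mul _ _
          _ ≤ |F x| * ε := mul_le_mul_of_nonneg_left e2 (abs_nonneg _)
      calc chi (N x) * (chi (N x) * (F x * ((N x)⁻¹ * F x)))
            - chi (N x) * (chi (N x) * (F x * ((N x)⁻¹ * h x)))
          = (chi (N x) * chi (N x) * (N x)⁻¹) * (F x * (F x - h x)) := by ring
        _ ≤ (chi (N x) * chi (N x) * (N x)⁻¹) * (|F x| * ε) :=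
            mul_le_mul_of_nonneg_left e3 (mul_nonneg hc2 hi.le)
        _ = ε * (chi (N x) * (chi (N x) * ((N x)⁻¹ * |F x|))) := by ring
  have hB0 : B ≤ 0 := by
    by_contra hcon
    push Not at hcon
    rcases le_or_gt C 0 with hC0 | hC0
    · have := hle 1 one_pos
      linarith
    · have := hle (B / (2 * C)) (by positivity)
      have e : B / (2 * C) * C = B / 2 := by field_simp
      rw [e] at this
      linarith
  have hnn : ∀ x : E d, 0 ≤ chi (N x) * (chi (N x) * (F x * ((N x)⁻¹ * F x))) := by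
    intro x
    have : chi (N x) * (chi (N x) * (F x * ((N x)⁻¹ * F x)))
        = (chi (N x) * F x) ^ 2 * (N x)⁻¹ := by ring
    rw [this]
    have : 0 ≤ N x := by unfold N; positivity
    positivity
  have hBz : B = 0 := le_antisymm hB0 (integral_nonneg hnn)
  have hae := (integral_eq_zero_iff_of_nonneg (fun x => hnn x) iB).1 hBz
  have hcont : Continuous (fun x : E d => chi (N x) * (chi (N x) * (F x * ((N x)⁻¹ * F x)))) :=
    cut_continuous (continuousOn_chiN.mul (hFc.mul (hN.mul hFc)))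
  have hzero := (hcont.ae_eq_iff_eq volume continuous_const).1 hae
  intro x
  by_cases hx : x = 0
  · rw [hx]; exact hF.1
  · have hnx : ‖x‖ ≠ 0 := norm_ne_zero_iff.2 hx
    set t : ℝ := (3 / 2) * ‖x‖⁻¹ with ht
    have ht0 : t ≠ 0 := by rw [ht]; positivity
    have hNt : N (t • x) = 9 / 4 := by
      rw [N_smul, ht]
      unfold N
      field_simp
      norm_num
    have hz := congrFun hzero (t • x)
    rw [hNt, hF.2.2 t ht0 x] at hz
    have hcp : 0 < chi (9 / 4) := chi_pos (by norm_num) (by norm_num)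
    have : chi (9 / 4) * (chi (9 / 4) * (F x * ((9 / 4)⁻¹ * F x)))
        = (chi (9 / 4) ^ 2 * (9 / 4)⁻¹) * F x ^ 2 := by ring
    rw [this] at hz
    have h2 : (chi (9 / 4) ^ 2 * (9 / 4 : ℝ)⁻¹) ≠ 0 := by positivity
    have h3 := (mul_eq_zero.1 hz).resolve_left h2
    exact pow_eq_zero_iff (two_ne_zero) |>.1 h3

/-- Classification of the eigenvalues of `RP^{d-1}`. -/
theorem eig_class {F : E d → ℝ} (hF : IsProj F) (hne : ∃ x, F x ≠ 0) {κ : ℝ}
    (hE : ∀ x, x ≠ 0 → ‖x‖ ^ 2 * lap F x = -κ * F x) :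
    ∃ m : ℕ, κ = 2 * m * (2 * m + d - 2) := by
  by_contra hcon
  push Not at hcon
  obtain ⟨x, hx⟩ := hne
  exact hx (eq_zero_of_Im hF (fun m p hp hd => Im_zero hF hE hcon m p hp hd) x)

end Pool.Agent.X154.RP
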