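import Mathlib
import Pool.Agent.X154.RP.C
import Pool.Agent.X154.RP.Def2

namespace Pool.Agent.X154.RP

open Filter Topology MeasureTheory
open scoped RealInnerProductSpace

variable {d : ℕ}

/-- `δ_{ab}` -/
noncomputable def del (a b : Fin d) : ℝ := if a = b then 1 else 0

/-- Components of the (unnormalised) Veronese map. -/
noncomputable def ver (a b : Fin d) (x : E d) : ℝ :=
  (N x)⁻¹ * (x a * x b) - (if x = 0 then 0 else del a b / d)

/-- The Veronese map. -/
noncomputable def veronese (d : ℕ) (x : E d) : EuclideanSpace ℝ (Fin d × Fin d) :=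
  WithLp.toLp 2 fun ab => Real.sqrt ((d : ℝ) / (d - 1)) * ver ab.1 ab.2 x

theorem veronese_apply (x : E d) (a : Fin d × Fin d) :
    veronese d x a = Real.sqrt ((d : ℝ) / (d - 1)) * ver a.1 a.2 x := rfl

theorem hom_quad (a b : Fin d) : Hom (2 * 1) (fun x : E d => x a * x b) := by
  intro t _ x
  simp
  ring

theorem contDiff_coord (a : Fin d) : ContDiff ℝ (⊤ : ℕ∞) (fun x : E d => x a) :=
  (EuclideanSpace.proj a : E d →L[ℝ] ℝ).contDiff

theorem contDiff_quad (a b : Fin d) : ContDiff ℝ (⊤ : ℕ∞) (fun x : E d => x a * x b) :=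
  (contDiff_coord a).mul (contDiff_coord b)

theorem pd_quad (i a b : Fin d) (x : E d) :
    pd i (fun x : E d => x a * x b) x = x a * del b i + del a i * x b := by
  rw [pd_mul ((contDiff_coord a).differentiable (by simp) x)
    ((contDiff_coord b).differentiable (by simp) x), pd_coord, pd_coord]
  rfl

theorem lap_quad (a b : Fin d) (x : E d) : lap (fun x : E d => x a * x b) x = 2 * del a b := by
  unfold lap
  have h : ∀ i : Fin d, pd i (pd i (fun x : E d => x a * x b)) x = 2 * (del a i * del b i) := by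
    intro i
    have e : pd i (fun x : E d => x a * x b) = fun x => x a * del b i + del a i * x b :=
      funext fun y => pd_quad i a b y
    rw [e]
    unfold pd
    rw [fderiv_fun_add]
    · have e1 : fderiv ℝ (fun x : E d => x a * del b i) x (EuclideanSpace.single i 1)
          = del a i * del b i := by
        rw [fderiv_mul_const ((contDiff_coord a).differentiable (by simp) x)]
        have := pd_coord i a x
        unfold pd at this
        simp only [_root_.smul_apply, smul_eq_mul]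
        rw [this]; unfold del; ring
      have e2 : fderiv ℝ (fun x : E d => del a i * x b) x (EuclideanSpace.single i 1)
          = del a i * del b i := by
        rw [fderiv_const_mul ((contDiff_coord b).differentiable (by simp) x)]
        have := pd_coord i b x
        unfold pd at this
        simp only [_root_.smul_apply, smul_eq_mul]
        rw [this]; unfold del; ring
      show fderiv ℝ (fun x : E d => x a * del b i) x (EuclideanSpace.single i 1)
        + fderiv ℝ (fun x : E d => del a i * x b) x (EuclideanSpace.single i 1) = _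
      rw [e1, e2]; ring
    · exact ((contDiff_coord a).differentiable (by simp) x).mul_const _
    · exact ((contDiff_coord b).differentiable (by simp) x).const_mul _
  rw [Finset.sum_congr rfl (fun i _ => h i), ← Finset.mul_sum]
  congr 1
  unfold del
  simp

theorem ver_eventually (a b : Fin d) {x : E d} (hx : x ≠ 0) :
    ver a b =ᶠ[𝓝 x] fun y => G 1 (fun x : E d => x a * x b) y + (-(del a b / d)) := by
  filter_upwards [isOpen_compl_singleton.mem_nhds hx] with y hy
  have hy' : y ≠ 0 := hy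
  unfold ver G
  rw [if_neg hy']
  simp
  ring

theorem isProj_ver (a b : Fin d) : IsProj (ver a b) := by
  refine ⟨?_, ?_, ?_⟩
  · unfold ver N; simp
  · intro x hx
    have hx' : x ≠ 0 := hx
    apply ContDiffAt.contDiffWithinAt
    refine ContDiffAt.congr_of_eventuallyEq ?_ (ver_eventually a b hx')
    have h1 : ContDiffOn ℝ (⊤ : ℕ∞) (G 1 (fun x : E d => x a * x b)) {0}ᶜ :=
      (contDiffOn_zpowN _).mul (contDiff_quad a b).contDiffOn
    exact (h1.contDiffAt (isOpen_compl_singleton.mem_nhds hx')).add contDiffAt_const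
  · intro t ht x
    unfold ver
    by_cases hx : x = 0
    · subst hx; simp
    · have htx : t • x ≠ 0 := smul_ne_zero ht hx
      rw [if_neg hx, if_neg htx, N_smul]
      have hN := (N_pos hx).ne'
      simp
      field_simp

theorem lap_ver (a b : Fin d) {x : E d} (hx : x ≠ 0) :
    lap (ver a b) x = (N x)⁻¹ * (2 * del a b) - 2 * d * ((N x)⁻¹ * ((N x)⁻¹ * (x a * x b))) := by
  rw [lap_congr (ver_eventually a b hx)]
  have h1 : ContDiffOn ℝ (⊤ : ℕ∞) (G 1 (fun x : E d => x a * x b)) {0}ᶜ :=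
    (contDiffOn_zpowN _).mul (contDiff_quad a b).contDiffOn
  have h2 : ContDiffAt ℝ 2 (G 1 (fun x : E d => x a * x b)) x :=
    (h1.contDiffAt (isOpen_compl_singleton.mem_nhds hx)).of_le two_le_top
  rw [lap_add h2 contDiffAt_const', lap_const, add_zero,
    lap_G (hom_quad a b) (contDiff_quad a b) hx, lap_quad]
  have hN := (N_pos hx).ne'
  have e1 : N x ^ (-((1 : ℕ) : ℤ)) = (N x)⁻¹ := by simp
  have e2 : N x ^ (-((1 : ℕ) : ℤ) - 1) = (N x)⁻¹ * (N x)⁻¹ := by
    rw [zpow_sub_one₀ hN, e1]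
  rw [e1, e2]
  push_cast
  ring

theorem eig_ver (hd : 2 ≤ d) (a b : Fin d) {x : E d} (hx : x ≠ 0) :
    ‖x‖ ^ 2 * lap (ver a b) x = -(2 * d) * ver a b x := by
  have hd0 : (d : ℝ) ≠ 0 := by
    have : (0 : ℝ) < d := by exact_mod_cast (by omega : 0 < d)
    exact this.ne'
  rw [lap_ver a b hx]
  unfold ver
  rw [if_neg hx]
  have hN := (N_pos hx).ne'
  have : ‖x‖ ^ 2 = N x := rfl
  rw [this]
  field_simp
  ring

theorem sum_sq_mul (x : E d) : ∑ ab : Fin d × Fin d, (x ab.1 * x ab.2) ^ 2 = N x ^ 2 := by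
  rw [Fintype.sum_prod_type, N_eq, sq, Finset.sum_mul_sum]
  apply Finset.sum_congr rfl
  intro i _
  apply Finset.sum_congr rfl
  intro j _
  ring

theorem norm_veronese (hd : 2 ≤ d) {x : E d} (hx : x ≠ 0) : ‖veronese d x‖ = 1 := by
  have hdr : (2 : ℝ) ≤ d := by exact_mod_cast hd
  have hd0 : (d : ℝ) ≠ 0 := by linarith
  have hd1 : (d : ℝ) - 1 ≠ 0 := by linarith
  have hN := (N_pos hx).ne'
  have h : ‖veronese d x‖ ^ 2 = 1 := by
    rw [EuclideanSpace.norm_sq_eq]
    have hterm : ∀ ab : Fin d × Fin d, ‖veronese d x ab‖ ^ 2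
        = ((d : ℝ) / (d - 1)) * ((N x)⁻¹ ^ 2 * (x ab.1 * x ab.2) ^ 2
          - 2 * (N x)⁻¹ / d * (del ab.1 ab.2 * (x ab.1 * x ab.2)) + del ab.1 ab.2 / d ^ 2) := by
      intro ab
      rw [veronese_apply, Real.norm_eq_abs, sq_abs, mul_pow,
        Real.sq_sqrt (div_nonneg (by linarith) (by linarith))]
      congr 1
      unfold ver
      rw [if_neg hx]
      have hdd : del ab.1 ab.2 ^ 2 = del ab.1 ab.2 := by unfold del; split_ifs <;> norm_num
      calc ((N x)⁻¹ * (x ab.1 * x ab.2) - del ab.1 ab.2 / d) ^ 2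
          = (N x)⁻¹ ^ 2 * (x ab.1 * x ab.2) ^ 2
          - 2 * (N x)⁻¹ / d * (del ab.1 ab.2 * (x ab.1 * x ab.2)) + del ab.1 ab.2 ^ 2 / d ^ 2 := by
            ring
        _ = _ := by rw [hdd]
    rw [Finset.sum_congr rfl (fun ab _ => hterm ab), ← Finset.mul_sum, Finset.sum_add_distrib,
      Finset.sum_sub_distrib, ← Finset.mul_sum, ← Finset.mul_sum, sum_sq_mul]
    have s2 : ∑ ab : Fin d × Fin d, del ab.1 ab.2 * (x ab.1 * x ab.2) = N x := by
      rw [Fintype.sum_prod_type, N_eq]
      apply Finset.sum_congr rfl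
      intro i _
      unfold del
      simp
      ring
    have s3 : ∑ ab : Fin d × Fin d, del ab.1 ab.2 / (d : ℝ) ^ 2 = 1 / d := by
      rw [← Finset.sum_div, Fintype.sum_prod_type]
      unfold del
      simp
      field_simp
    rw [s2, s3]
    field_simp
    ring
  have h0 : 0 ≤ ‖veronese d x‖ := norm_nonneg _
  nlinarith

theorem fderiv_ver (a b : Fin d) {x : E d} (hx : ‖x‖ = 1) {u : E d} (hu : ⟪x, u⟫ = 0) :
    fderiv ℝ (ver a b) x u = x a * u b + u a * x b := by
  have hx0 : x ≠ 0 := by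
    intro h; rw [h, norm_zero] at hx; exact zero_ne_one hx
  have hNx : N x = 1 := by unfold N; rw [hx]; norm_num
  have hev : ver a b =ᶠ[𝓝 x] fun y => (N y)⁻¹ * (y a * y b) + (-(del a b / d)) := by
    filter_upwards [isOpen_compl_singleton.mem_nhds hx0] with y hy
    have hy' : y ≠ 0 := hy
    unfold ver
    rw [if_neg hy']
    ring
  rw [hev.fderiv_eq]
  have h1 : HasFDerivAt (fun y : E d => (N y)⁻¹) (-(N x ^ 2)⁻¹ • (2 • innerSL ℝ x)) x :=
    (hasDerivAt_inv (N_pos hx0).ne').comp_hasFDerivAt x (hasFDerivAt_N x)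
  have ha : HasFDerivAt (fun y : E d => y a) (EuclideanSpace.proj a : E d →L[ℝ] ℝ) x :=
    (EuclideanSpace.proj a : E d →L[ℝ] ℝ).hasFDerivAt
  have hb : HasFDerivAt (fun y : E d => y b) (EuclideanSpace.proj b : E d →L[ℝ] ℝ) x :=
    (EuclideanSpace.proj b : E d →L[ℝ] ℝ).hasFDerivAt
  have h2 := (h1.mul (ha.mul hb)).add_const (-(del a b / d))
  have h3 : fderiv ℝ (fun y : E d => (N y)⁻¹ * (y a * y b) + (-(del a b / d))) x = _ := h2.fderiv
  rw [h3]
  simp [hNx, hu]
  ring

theorem inner_veronese (hd : 2 ≤ d) {x : E d} (hx : ‖x‖ = 1) {u v : E d} (hu : ⟪x, u⟫ = 0)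
    (hv : ⟪x, v⟫ = 0) :
    ⟪fderiv ℝ (veronese d) x u, fderiv ℝ (veronese d) x v⟫ = 2 * d / (d - 1) * ⟪u, v⟫ := by
  have hdr : (2 : ℝ) ≤ d := by exact_mod_cast hd
  have hx0 : x ≠ 0 := by
    intro h; rw [h, norm_zero] at hx; exact zero_ne_one hx
  have hNx : N x = 1 := by unfold N; rw [hx]; norm_num
  have hcomp : ∀ (w : E d), ⟪x, w⟫ = 0 → ∀ ab : Fin d × Fin d,
      (fderiv ℝ (veronese d) x w) ab
        = Real.sqrt ((d : ℝ) / (d - 1)) * (x ab.1 * w ab.2 + w ab.1 * x ab.2) := by
    intro w hw ab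
    have hdiff : DifferentiableAt ℝ (veronese d) x := by
      rw [differentiableAt_euclidean]
      intro ab
      exact ((two_at (isProj_ver ab.1 ab.2) hx0).differentiableAt (by norm_num)).const_mul _
    have h1 : (fderiv ℝ (veronese d) x w) ab = fderiv ℝ (fun y => veronese d y ab) x w := by
      have h2 : HasFDerivAt (fun y => veronese d y ab)
          ((EuclideanSpace.proj ab : EuclideanSpace ℝ (Fin d × Fin d) →L[ℝ] ℝ).comp
            (fderiv ℝ (veronese d) x)) x :=
        (EuclideanSpace.proj ab : EuclideanSpace ℝ (Fin d × Fin d) →L[ℝ] ℝ).hasFDerivAt.comp x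
          hdiff.hasFDerivAt
      rw [h2.fderiv]; rfl
    rw [h1]
    have h3 : (fun y => veronese d y ab)
        = fun y => Real.sqrt ((d : ℝ) / (d - 1)) * ver ab.1 ab.2 y := rfl
    rw [h3, fderiv_const_mul ((two_at (isProj_ver ab.1 ab.2) hx0).differentiableAt (by norm_num))]
    simp only [_root_.smul_apply, smul_eq_mul]
    rw [fderiv_ver _ _ hx hw]
  rw [PiLp.inner_apply]
  have hterm : ∀ ab : Fin d × Fin d,
      ⟪(fderiv ℝ (veronese d) x u) ab, (fderiv ℝ (veronese d) x v) ab⟫
      = ((d : ℝ) / (d - 1)) * (((x ab.1 * x ab.1) * (u ab.2 * v ab.2)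
        + (u ab.1 * v ab.1) * (x ab.2 * x ab.2))
        + ((x ab.1 * v ab.1) * (x ab.2 * u ab.2) + (x ab.1 * u ab.1) * (x ab.2 * v ab.2))) := by
    intro ab
    rw [hcomp u hu, hcomp v hv]
    have hs : Real.sqrt ((d : ℝ) / (d - 1)) * Real.sqrt ((d : ℝ) / (d - 1)) = (d : ℝ) / (d - 1) :=
      Real.mul_self_sqrt (div_nonneg (by linarith) (by linarith))
    simp only [RCLike.inner_apply, conj_trivial]
    calc Real.sqrt ((d : ℝ) / (d - 1)) * (x ab.1 * v ab.2 + v ab.1 * x ab.2)
          * (Real.sqrt ((d : ℝ) / (d - 1)) * (x ab.1 * u ab.2 + u ab.1 * x ab.2))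
        = (Real.sqrt ((d : ℝ) / (d - 1)) * Real.sqrt ((d : ℝ) / (d - 1)))
          * ((x ab.1 * v ab.2 + v ab.1 * x ab.2) * (x ab.1 * u ab.2 + u ab.1 * x ab.2)) := by ring
      _ = _ := by rw [hs]; ring
  rw [Finset.sum_congr rfl (fun ab _ => hterm ab), ← Finset.mul_sum, Finset.sum_add_distrib,
    Finset.sum_add_distrib, Finset.sum_add_distrib]
  have hsplit : ∀ (f g : Fin d → ℝ), ∑ ab : Fin d × Fin d, f ab.1 * g ab.2
      = (∑ a, f a) * ∑ b, g b := by
    intro f g
    rw [Fintype.sum_prod_type, Finset.sum_mul_sum]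
  have hxx : ∑ a, x a * x a = 1 := by
    rw [← hNx, N_eq]
    exact Finset.sum_congr rfl fun i _ => (sq _).symm
  have hin : ∀ (y z : E d), ∑ a, y a * z a = ⟪y, z⟫ := by
    intro y z
    rw [PiLp.inner_apply]
    apply Finset.sum_congr rfl
    intro i _
    simp [mul_comm]
  rw [hsplit (fun a => x a * x a) (fun b => u b * v b), hsplit (fun a => u a * v a) (fun b => x b * x b),
    hsplit (fun a => x a * v a) (fun b => x b * u b), hsplit (fun a => x a * u a) (fun b => x b * v b),
    hxx, hin, hin, hin, hu, hv]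
  ring

theorem veronese_minimal (hd : 2 ≤ d) :
    IsMinimalImmersion d (Fin d × Fin d) (2 * d / (d - 1)) (veronese d) where
  proj := by
    intro ab
    have h := isProj_ver (d := d) ab.1 ab.2
    refine ⟨?_, contDiffOn_const.mul h.2.1, ?_⟩
    · show Real.sqrt ((d : ℝ) / (d - 1)) * ver ab.1 ab.2 0 = 0
      rw [h.1, mul_zero]
    · intro t ht x
      show Real.sqrt ((d : ℝ) / (d - 1)) * ver ab.1 ab.2 (t • x)
        = Real.sqrt ((d : ℝ) / (d - 1)) * ver ab.1 ab.2 x
      rw [h.2.2 t ht x]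
  sphere := fun x hx => norm_veronese hd hx
  isometric := fun x hx u v hu hv => inner_veronese hd hx hu hv
  minimal := by
    intro ab x hx
    have hdr : (2 : ℝ) ≤ d := by exact_mod_cast hd
    have h3 : (fun y => veronese d y ab)
        = fun y => Real.sqrt ((d : ℝ) / (d - 1)) * ver ab.1 ab.2 y := rfl
    have h4 : lap (fun y => veronese d y ab) x
        = Real.sqrt ((d : ℝ) / (d - 1)) * lap (ver ab.1 ab.2) x := by
      rw [h3]; exact lap_const_mul _ (two_at (isProj_ver ab.1 ab.2) hx)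
    have h5 := eig_ver hd ab.1 ab.2 hx
    unfold lapRP
    rw [h4, veronese_apply]
    have hd1 : (d : ℝ) - 1 ≠ 0 := by linarith
    have hd0 : (d : ℝ) ≠ 0 := by linarith
    calc (2 * (d : ℝ) / (d - 1))⁻¹ * (‖x‖ ^ 2 * (Real.sqrt ((d : ℝ) / (d - 1))
          * lap (ver ab.1 ab.2) x)) + ((d : ℝ) - 1) * (Real.sqrt ((d : ℝ) / (d - 1))
          * ver ab.1 ab.2 x)
        = Real.sqrt ((d : ℝ) / (d - 1)) * ((2 * (d : ℝ) / (d - 1))⁻¹
          * (‖x‖ ^ 2 * lap (ver ab.1 ab.2) x) + ((d : ℝ) - 1) * ver ab.1 ab.2 x) := by ring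
      _ = 0 := by
        rw [h5]
        field_simp
        ring

end Pool.Agent.X154.RP
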