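import Mathlib
import Pool.Agent.X154.RP.D

namespace Pool.Agent.X154.RP

open Filter Topology

variable {d : ℕ}

theorem exists_eig_of_listing {ρ : ℝ} {lam : ℕ → ℝ} (h : IsListing d ρ lam) (i : ℕ) :
    ∃ F ∈ eigenspace d ρ (lam i), F ≠ 0 := by
  obtain ⟨hfin, hS, hr⟩ := h.2 (lam i)
  have hpos : 0 < {k | lam k = lam i}.ncard := (Set.ncard_pos hS).2 ⟨i, rfl⟩
  have : 0 < Module.finrank ℝ (eigenspace d ρ (lam i)) := by rw [hr]; exact hpos
  have hnt := Module.finrank_pos_iff.1 this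
  obtain ⟨F, hF⟩ := exists_ne (0 : eigenspace d ρ (lam i))
  exact ⟨F.1, F.2, fun h0 => hF (Subtype.ext h0)⟩

theorem eig_values {ρ : ℝ} (hρ : 0 < ρ) {μ : ℝ} {F : E d → ℝ} (hF : F ∈ eigenspace d ρ μ)
    (h0 : F ≠ 0) : ∃ m : ℕ, ρ * μ = 2 * m * (2 * m + d - 2) := by
  have hF' : IsEig d ρ μ F := hF
  apply eig_class hF'.1
  · by_contra hcon
    push Not at hcon
    exact h0 (funext hcon)
  · intro x hx
    have h := hF'.2 x hx
    unfold lapRP at h
    have : ρ * (ρ⁻¹ * (‖x‖ ^ 2 * lap F x)) = ρ * (-μ * F x) := by rw [h]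
    rw [mul_inv_cancel_left₀ hρ.ne'] at this
    rw [this]; ring

theorem n_is_eig (hd : 2 ≤ d) : ∃ F ∈ eigenspace d (2 * d / (d - 1)) ((d : ℝ) - 1), F ≠ 0 := by
  have h := veronese_minimal hd
  have hd0 : 0 < d := by omega
  set x : E d := EuclideanSpace.single ⟨0, hd0⟩ (1 : ℝ) with hx
  have hx0 : x ≠ 0 := by
    intro h0
    have := congrArg (fun y : E d => ‖y‖) h0
    rw [hx] at this
    simp at this
  have hns := h.sphere x hx0
  have : ∃ ab, veronese d x ab ≠ 0 := by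
    by_contra hcon
    push Not at hcon
    have h0 : veronese d x = 0 := by ext ab; exact hcon ab
    rw [h0, norm_zero] at hns
    exact zero_ne_one hns
  obtain ⟨ab, hab⟩ := this
  refine ⟨fun y => veronese d y ab, ⟨h.proj ab, ?_⟩, ?_⟩
  · intro y hy
    have := h.minimal ab y hy
    linarith
  · intro h0
    exact hab (congrFun h0 x)

theorem counterexample {n : ℕ} (hn : 6 ≤ n) {lam : ℕ → ℝ}
    (h : IsListing (n + 1) (2 * ((n + 1 : ℕ) : ℝ) / (((n + 1 : ℕ) : ℝ) - 1)) lam) :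
    ∃ j : ℕ, ((n : ℝ) + 3) * lam j + lam j ^ 2 / lam (j + 1) + (n : ℝ) ^ 2
      < ∑ k ∈ Finset.Icc 1 n, lam (j + k) := by
  set ρ : ℝ := 2 * ((n + 1 : ℕ) : ℝ) / (((n + 1 : ℕ) : ℝ) - 1) with hρdef
  have hnr : (6 : ℝ) ≤ n := by exact_mod_cast hn
  have hρ' : ρ = 2 * ((n : ℝ) + 1) / n := by rw [hρdef]; push_cast; ring
  have hρ : 0 < ρ := by rw [hρ']; positivity
  -- the eigenvalue n occurs
  obtain ⟨F, hF, hF0⟩ := n_is_eig (d := n + 1) (by omega)
  have hn' : (((n + 1 : ℕ) : ℝ) - 1) = (n : ℝ) := by push_cast; ring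
  rw [← hρdef, hn'] at hF
  obtain ⟨hfin, hS, hr⟩ := h.2 (n : ℝ)
  have hne : {i | lam i = (n : ℝ)}.Nonempty := by
    rw [← Set.ncard_pos hS, ← hr]
    have : Nontrivial (eigenspace (n + 1) ρ (n : ℝ)) :=
      ⟨⟨⟨F, hF⟩, 0, fun h0 => hF0 (congrArg Subtype.val h0)⟩⟩
    exact Module.finrank_pos
  obtain ⟨j, hj, hmax⟩ := hS.exists_maximal hne
  have hj' : lam j = n := hj
  have hjs : lam (j + 1) ≠ n := by
    intro h1
    have := hmax (show j + 1 ∈ {i | lam i = (n : ℝ)} from h1) (by omega)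
    omega
  have hgt : (n : ℝ) < lam (j + 1) := by
    rcases lt_or_eq_of_le (h.1 (Nat.le_succ j)) with h1 | h1
    · rw [hj'] at h1; exact h1
    · exact absurd (by rw [← h1]; exact hj') hjs
  -- lower bound for λ_{j+1}
  have hL : 2 * (n : ℝ) * (n + 3) / (n + 1) ≤ lam (j + 1) := by
    obtain ⟨F1, hF1, hF10⟩ := exists_eig_of_listing h (j + 1)
    obtain ⟨m, hm⟩ := eig_values hρ hF1 hF10
    have hm2 : 2 ≤ m := by
      by_contra hcon
      have hm1 : m = 0 ∨ m = 1 := by omega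
      have h1 : ρ * n < ρ * lam (j + 1) := mul_lt_mul_of_pos_left hgt hρ
      have h2 : ρ * n = 2 * (n + 1) := by rw [hρ']; field_simp
      rw [hm, h2] at h1
      rcases hm1 with rfl | rfl
      · push_cast at h1
        nlinarith
      · push_cast at h1
        nlinarith
    have hmr : (2 : ℝ) ≤ m := by exact_mod_cast hm2
    have h3 : 4 * ((n : ℝ) + 3) ≤ ρ * lam (j + 1) := by
      rw [hm]; push_cast; nlinarith
    rw [div_le_iff₀ (by positivity)]
    rw [hρ', div_mul_eq_mul_div, le_div_iff₀ (by positivity)] at h3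
    nlinarith
  have hLpos : 0 < 2 * (n : ℝ) * (n + 3) / (n + 1) := by positivity
  refine ⟨j, ?_⟩
  have hsum : (n : ℝ) * (2 * (n : ℝ) * (n + 3) / (n + 1)) ≤ ∑ k ∈ Finset.Icc 1 n, lam (j + k) := by
    have : ∑ _k ∈ Finset.Icc 1 n, (2 * (n : ℝ) * (n + 3) / (n + 1))
        = (n : ℝ) * (2 * (n : ℝ) * (n + 3) / (n + 1)) := by simp
    rw [← this]
    apply Finset.sum_le_sum
    intro k hk
    have hk1 := (Finset.mem_Icc.1 hk).1
    exact hL.trans (h.1 (by omega))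
  have hdiv : lam j ^ 2 / lam (j + 1) ≤ (n : ℝ) ^ 2 / (2 * (n : ℝ) * (n + 3) / (n + 1)) := by
    rw [hj']
    exact div_le_div_of_nonneg_left (by positivity) hLpos hL
  have hkey : ((n : ℝ) + 3) * n + (n : ℝ) ^ 2 / (2 * (n : ℝ) * (n + 3) / (n + 1)) + (n : ℝ) ^ 2
      < (n : ℝ) * (2 * (n : ℝ) * (n + 3) / (n + 1)) := by
    have e1 : (n : ℝ) ^ 2 / (2 * (n : ℝ) * (n + 3) / (n + 1)) = n * (n + 1) / (2 * (n + 3)) := by
      field_simp
    rw [e1]
    have e2 : (n : ℝ) * (2 * (n : ℝ) * (n + 3) / (n + 1))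
        - (((n : ℝ) + 3) * n + n * (n + 1) / (2 * (n + 3)) + (n : ℝ) ^ 2)
        = n * (n ^ 2 - 2 * n - 19) / (2 * (n + 1) * (n + 3)) := by
      field_simp
      ring
    have e3 : 0 < n * ((n : ℝ) ^ 2 - 2 * n - 19) / (2 * (n + 1) * (n + 3)) := by
      apply div_pos _ (by positivity)
      apply mul_pos (by linarith)
      nlinarith
    linarith
  rw [hj'] at hdiv ⊢
  linarith

end Pool.Agent.X154.RP
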