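import Mathlib
import Pool.Agent.X154.RP.F

/-!
Finite-dimensionality of the eigenspaces of `RP^{d-1}`.
-/

namespace Pool.Agent.X154.RP

open Filter Topology MeasureTheory

variable {d : ℕ}

/-- multiplication by a coordinate -/
noncomputable def mulCoord (i : Fin d) : (E d → ℝ) →ₗ[ℝ] (E d → ℝ) where
  toFun f := fun x => x i * f x
  map_add' f g := by funext x; simp [mul_add]
  map_smul' c f := by funext x; simp; ring

/-- homogeneous polynomial functions of degree `l` -/
noncomputable def P : ℕ → Submodule ℝ (E d → ℝ)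
  | 0 => Submodule.span ℝ {fun _ => (1 : ℝ)}
  | l + 1 => ⨆ i : Fin d, (P l).map (mulCoord i)

theorem P_finite (l : ℕ) : Module.Finite ℝ (P l : Submodule ℝ (E d → ℝ)) := by
  induction l with
  | zero => rw [P]; infer_instance
  | succ l ih =>
    rw [P]
    have : ∀ i : Fin d, Module.Finite ℝ ((P l).map (mulCoord i) : Submodule ℝ (E d → ℝ)) :=
      fun i => inferInstance
    infer_instance

theorem P_mul {l : ℕ} {q : E d → ℝ} (hq : q ∈ P l) (i : Fin d) :
    (fun x : E d => x i * q x) ∈ (P (l + 1) : Submodule ℝ (E d → ℝ)) := by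
  rw [P]
  exact Submodule.mem_iSup_of_mem i (Submodule.mem_map_of_mem (f := mulCoord i) hq)

theorem P_ind {l : ℕ} {motive : (E d → ℝ) → Prop}
    (hmul : ∀ i : Fin d, ∀ q ∈ P l, motive (fun x => x i * q x)) (hzero : motive 0)
    (hadd : ∀ f g, f ∈ P (l + 1) → g ∈ P (l + 1) → motive f → motive g → motive (f + g)) :
    ∀ p ∈ P (l + 1), motive p := by
  intro p hp
  have hp' := hp
  rw [P] at hp'
  have key : p ∈ (P (l + 1) : Submodule ℝ (E d → ℝ)) ∧ motive p := by
    refine Submodule.iSup_induction (fun i : Fin d => (P l).map (mulCoord i))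
      (motive := fun p => p ∈ (P (l + 1) : Submodule ℝ (E d → ℝ)) ∧ motive p) hp' ?_ ?_ ?_
    · intro i f hf
      obtain ⟨q, hq, rfl⟩ := hf
      exact ⟨P_mul hq i, hmul i q hq⟩
    · exact ⟨Submodule.zero_mem _, hzero⟩
    · intro f g hf hg
      exact ⟨Submodule.add_mem _ hf.1 hg.1, hadd f g hf.1 hg.1 hf.2 hg.2⟩
  exact key.2

theorem P_zero {p : E d → ℝ} (hp : p ∈ P 0) : ∃ c, p = fun _ => c := by
  rw [P, Submodule.mem_span_singleton] at hp
  obtain ⟨c, rfl⟩ := hp
  exact ⟨c, by funext x; simp⟩

theorem P_smooth (l : ℕ) : ∀ p ∈ (P l : Submodule ℝ (E d → ℝ)), ContDiff ℝ (⊤ : ℕ∞) p ∧ Hom l p := by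
  induction l with
  | zero =>
    intro p hp
    obtain ⟨c, rfl⟩ := P_zero hp
    exact ⟨contDiff_const, fun t _ x => by simp⟩
  | succ l ih =>
    apply P_ind
    · intro i q hq
      obtain ⟨h1, h2⟩ := ih q hq
      refine ⟨(contDiff_coord i).mul h1, ?_⟩
      intro t ht x
      show (t • x) i * q (t • x) = t ^ (l + 1) * (x i * q x)
      rw [h2 t ht x]
      simp
      ring
    · exact ⟨contDiff_const, fun t _ x => by simp⟩
    · intro f g _ _ hf hg
      refine ⟨hf.1.add hg.1, ?_⟩
      intro t ht x
      show f (t • x) + g (t • x) = t ^ (l + 1) * (f x + g x)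
      rw [hf.2 t ht x, hg.2 t ht x]; ring

theorem P_pd (l : ℕ) (i : Fin d) : ∀ p ∈ (P (l + 1) : Submodule ℝ (E d → ℝ)), pd i p ∈ P l := by
  induction l with
  | zero =>
    apply P_ind
    · intro j q hq
      obtain ⟨c, rfl⟩ := P_zero hq
      have : pd i (fun x : E d => x j * c) = (if j = i then c else 0) • (fun _ => (1 : ℝ)) := by
        funext x
        rw [pd_mul ((contDiff_coord j).differentiable (by simp) x) (differentiableAt_const c),
          pd_coord, pd_const]
        simp
      rw [this, P]
      exact Submodule.smul_mem _ _ (Submodule.mem_span_singleton_self _)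
    · have : pd i (0 : E d → ℝ) = 0 := by funext x; exact pd_const i 0 x
      rw [this]; exact Submodule.zero_mem _
    · intro f g hf hg h1 h2
      have : pd i (f + g) = pd i f + pd i g := by
        funext x
        unfold pd
        rw [fderiv_add ((P_smooth 1 f hf).1.differentiable (by simp) x)
          ((P_smooth 1 g hg).1.differentiable (by simp) x)]
        rfl
      rw [this]; exact Submodule.add_mem _ h1 h2
  | succ l ih =>
    apply P_ind
    · intro j q hq
      have hqs := P_smooth (l + 1) q hq
      have : pd i (fun x : E d => x j * q x)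
          = (fun x => x j * pd i q x) + (if j = i then (1 : ℝ) else 0) • q := by
        funext x
        rw [pd_mul ((contDiff_coord j).differentiable (by simp) x)
          (hqs.1.differentiable (by simp) x), pd_coord]
        simp only [Pi.add_apply, Pi.smul_apply, smul_eq_mul]
      rw [this]
      exact Submodule.add_mem _ (P_mul (ih q hq) j) (Submodule.smul_mem _ _ hq)
    · have : pd i (0 : E d → ℝ) = 0 := by funext x; exact pd_const i 0 x
      rw [this]; exact Submodule.zero_mem _
    · intro f g hf hg h1 h2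
      have : pd i (f + g) = pd i f + pd i g := by
        funext x
        unfold pd
        rw [fderiv_add ((P_smooth _ f hf).1.differentiable (by simp) x)
          ((P_smooth _ g hg).1.differentiable (by simp) x)]
        rfl
      rw [this]; exact Submodule.add_mem _ h1 h2

theorem P_lap {l : ℕ} {p : E d → ℝ} (hp : p ∈ (P (l + 2) : Submodule ℝ (E d → ℝ))) :
    lap p ∈ P l := by
  have : lap p = ∑ i, pd i (pd i p) := by funext x; simp [lap]
  rw [this]
  exact Submodule.sum_mem _ fun i _ => P_pd l i _ (P_pd (l + 1) i _ hp)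

theorem Q_of_hom' {F : E d → ℝ} (hF : IsProj F)
    {g : C(Sph d, ℝ)} {l : ℕ} {p : E d → ℝ} (hI : ∀ m, l = 2 * m → Im F m p = 0)
    (hp : Hom l p) (hd : ContDiff ℝ (⊤ : ℕ∞) p)
    (hg : ∀ y : Sph d, g y = p y.1) : Q F g := by
  refine ⟨fun x => (‖x‖⁻¹) ^ l * p x, ?_, ?_, ?_⟩
  · apply ContinuousOn.mul _ hd.continuous.continuousOn
    apply ContinuousOn.pow
    apply ContinuousOn.inv₀ continuous_norm.continuousOn
    intro x hx
    exact norm_ne_zero_iff.2 hx
  · intro x hx
    rw [hg]
    have := hp (‖x‖⁻¹) (inv_ne_zero (norm_ne_zero_iff.2 hx)) x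
    exact this.symm
  · rcases Nat.even_or_odd' l with ⟨m, rfl | rfl⟩
    · rw [← hI m rfl]
      unfold Im
      apply integral_congr_ae
      refine Eventually.of_forall fun x => ?_
      by_cases hx : x = 0
      · subst hx
        have : chi (N (0 : E d)) = 0 := chi_zero_of_le (by unfold N; simp)
        simp [this]
      · have hN := N_pos hx
        have e1 : (‖x‖⁻¹) ^ (2 * m) = N x ^ (-(m : ℤ)) := by
          unfold N
          rw [zpow_neg, zpow_natCast, ← pow_mul, inv_pow]
        simp only
        rw [e1, zpow_sub_one₀ hN.ne']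
        ring
    · set J : E d → ℝ := fun x => chi (N x) * (chi (N x) * (F x * ((N x)⁻¹
        * ((‖x‖⁻¹) ^ (2 * m + 1) * p x)))) with hJ
      have hodd : ∀ x, J (-x) = - J x := by
        intro x
        simp only [hJ]
        have hNn : N (-x) = N x := by unfold N; rw [norm_neg]
        have hFn : F (-x) = F x := by
          have := hF.2.2 (-1) (by norm_num) x
          simpa using this
        have hpn : p (-x) = - p x := by
          have := hp (-1) (by norm_num) x
          simp [pow_succ, pow_mul] at this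
          exact this
        rw [hNn, hFn, hpn, norm_neg]
        ring
      have h1 : ∫ x, J (-x) = ∫ x, J x := integral_neg_eq_self J volume
      have h2 : ∫ x, J (-x) = - ∫ x, J x := by
        rw [← integral_neg]
        exact integral_congr_ae (Eventually.of_forall hodd)
      linarith

theorem Q_adjoin' {F : E d → ℝ} (hF : IsProj F)
    (hI : ∀ (m : ℕ), ∀ p ∈ (P (2 * m) : Submodule ℝ (E d → ℝ)), Im F m p = 0)
    {g : C(Sph d, ℝ)} (hg : g ∈ Algebra.adjoin ℝ (Set.range (coord (d := d)))) : Q F g := by
  have hg' : g ∈ Subalgebra.toSubmodule (Algebra.adjoin ℝ (Set.range (coord (d := d)))) := hg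
  rw [Algebra.adjoin_eq_span] at hg'
  have hR : ∀ g ∈ Submonoid.closure (Set.range (coord (d := d))), ∃ (l : ℕ),
      ∃ p ∈ (P l : Submodule ℝ (E d → ℝ)), ∀ y : Sph d, g y = p y.1 := by
    intro g hg
    induction hg using Submonoid.closure_induction_left with
    | one =>
      refine ⟨0, fun _ => 1, ?_, fun y => rfl⟩
      rw [P]
      exact Submodule.mem_span_singleton_self _
    | mul_left x hx y _ ih =>
      obtain ⟨i, rfl⟩ := hx
      obtain ⟨l, p, hp, h⟩ := ih
      refine ⟨l + 1, fun x => x i * p x, P_mul hp i, ?_⟩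
      intro z
      rw [ContinuousMap.mul_apply, h]
      rfl
  clear hg
  induction hg' using Submodule.span_induction with
  | mem g hg =>
    obtain ⟨l, p, h1, h3⟩ := hR g hg
    have h2 := P_smooth l p h1
    exact Q_of_hom' hF (fun m hm => hI m p (by rw [← hm]; exact h1)) h2.2 h2.1 h3
  | zero =>
    exact ⟨fun _ => 0, continuousOn_const, fun x hx => rfl, by simp⟩
  | add a b _ _ ha hb => exact Q_add hF ha hb
  | smul c a _ ha => exact Q_smul c ha

end Pool.Agent.X154.RP
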