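import Mathlib
import Pool.Agent.X154.RP.H

/-!
Finite-dimensionality of the eigenspaces of `RP^{d-1}`.
-/

namespace Pool.Agent.X154.RP

open Filter Topology MeasureTheory

variable {d : ℕ}

theorem eq_zero_of_Im' {F : E d → ℝ} (hF : IsProj F)
    (hI : ∀ (m : ℕ), ∀ p ∈ (P (2 * m) : Submodule ℝ (E d → ℝ)), Im F m p = 0) :
    ∀ x, F x = 0 := by
  have hFc : ContinuousOn F {0}ᶜ := hF.2.1.continuousOn
  have hN : ContinuousOn (fun x : E d => (N x)⁻¹) {0}ᶜ :=
    contDiff_N.continuous.continuousOn.inv₀ fun x hx => (N_pos hx).ne'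
  have hne : ∀ y : Sph d, y.1 ≠ 0 := by
    intro y h
    have := mem_sphere_zero_iff_norm.1 y.2
    rw [h, norm_zero] at this
    exact zero_ne_one this
  set f : C(Sph d, ℝ) := ⟨fun y => F y.1, by
    rw [continuous_iff_continuousAt]
    intro y
    have h1 : ContinuousAt F y.1 := hFc.continuousAt (isOpen_compl_singleton.mem_nhds (hne y))
    exact h1.comp continuousAt_subtype_val⟩ with hf
  have hsep : (Algebra.adjoin ℝ (Set.range (coord (d := d)))).SeparatesPoints := by
    intro y z hyz
    have : ∃ i, y.1 i ≠ z.1 i := by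
      by_contra hcon
      push Not at hcon
      exact hyz (Subtype.ext (by ext i; exact hcon i))
    obtain ⟨i, hi⟩ := this
    exact ⟨coord i, ⟨coord i, Algebra.subset_adjoin ⟨i, rfl⟩, rfl⟩, hi⟩
  set C : ℝ := ∫ x, chi (N x) * (chi (N x) * ((N x)⁻¹ * |F x|)) with hC
  set B : ℝ := ∫ x, chi (N x) * (chi (N x) * (F x * ((N x)⁻¹ * F x))) with hB
  have iB : Integrable (fun x : E d => chi (N x) * (chi (N x) * (F x * ((N x)⁻¹ * F x)))) :=
    int_aux (hFc.mul (hN.mul hFc))
  have iC : Integrable (fun x : E d => chi (N x) * (chi (N x) * ((N x)⁻¹ * |F x|))) :=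
    int_aux (hN.mul hFc.abs)
  have hle : ∀ ε : ℝ, 0 < ε → B ≤ ε * C := by
    intro ε hε
    obtain ⟨g, hg⟩ := ContinuousMap.exists_mem_subalgebra_near_continuousMap_of_separatesPoints
      _ hsep f ε hε
    obtain ⟨h, h1, h2, h3⟩ := Q_adjoin' hF hI g.2
    have ih : Integrable (fun x : E d => chi (N x) * (chi (N x) * (F x * ((N x)⁻¹ * h x)))) :=
      int_aux (hFc.mul (hN.mul h1))
    have hBe : B = ∫ x, (chi (N x) * (chi (N x) * (F x * ((N x)⁻¹ * F x)))
        - chi (N x) * (chi (N x) * (F x * ((N x)⁻¹ * h x)))) := by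
      rw [integral_sub iB ih, h3, sub_zero]
    rw [hBe, hC, ← integral_const_mul]
    apply integral_mono (iB.sub ih) (iC.const_mul ε)
    intro x
    by_cases hx : x = 0
    · subst hx
      have : chi (N (0 : E d)) = 0 := chi_zero_of_le (by unfold N; simp)
      simp [this]
    · simp only
      have hNp := N_pos hx
      have e1 : F x = f ⟨‖x‖⁻¹ • x, unit_mem hx⟩ := by
        have := hF.2.2 (‖x‖⁻¹) (inv_ne_zero (norm_ne_zero_iff.2 hx)) x
        rw [hf]; exact this.symm
      have e2 : |F x - h x| ≤ ε := by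
        rw [e1, h2 x hx]
        have h5 := (g.1 - f).norm_coe_le_norm ⟨‖x‖⁻¹ • x, unit_mem hx⟩
        rw [ContinuousMap.sub_apply, Real.norm_eq_abs] at h5
        rw [abs_sub_comm]
        exact h5.trans hg.le
      have hi : 0 < (N x)⁻¹ := inv_pos.2 hNp
      have hc2 : 0 ≤ chi (N x) * chi (N x) := mul_self_nonneg _
      have e3 : F x * (F x - h x) ≤ |F x| * ε := by
        calc F x * (F x - h x) ≤ |F x * (F x - h x)| := le_abs_self _
          _ = |F x| * |F x - h x| := abs_mul _ _
          _ ≤ |F x| * ε := mul_le_mul_of_nonneg_left e2 (abs_nonneg _)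
      calc chi (N x) * (chi (N x) * (F x * ((N x)⁻¹ * F x)))
            - chi (N x) * (chi (N x) * (F x * ((N x)⁻¹ * h x)))
          = (chi (N x) * chi (N x) * (N x)⁻¹) * (F x * (F x - h x)) := by ring
        _ ≤ (chi (N x) * chi (N x) * (N x)⁻¹) * (|F x| * ε) :=
            mul_le_mul_of_nonneg_left e3 (mul_nonneg hc2 hi.le)
        _ = ε * (chi (N x) * (chi (N x) * ((N x)⁻¹ * |F x|))) := by ring
  have hB0 : B ≤ 0 := by
    by_contra hcon
    push Not at hcon
    rcases le_or_gt C 0 with hC0 | hC0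
    · have := hle 1 one_pos
      linarith
    · have := hle (B / (2 * C)) (by positivity)
      have e : B / (2 * C) * C = B / 2 := by field_simp
      rw [e] at this
      linarith
  have hnn : ∀ x : E d, 0 ≤ chi (N x) * (chi (N x) * (F x * ((N x)⁻¹ * F x))) := by
    intro x
    have : chi (N x) * (chi (N x) * (F x * ((N x)⁻¹ * F x)))
        = (chi (N x) * F x) ^ 2 * (N x)⁻¹ := by ring
    rw [this]
    have : 0 ≤ N x := by unfold N; positivity
    positivity
  have hBz : B = 0 := le_antisymm hB0 (integral_nonneg hnn)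
  have hae := (integral_eq_zero_iff_of_nonneg (fun x => hnn x) iB).1 hBz
  have hcont : Continuous (fun x : E d => chi (N x) * (chi (N x) * (F x * ((N x)⁻¹ * F x)))) :=
    cut_continuous (continuousOn_chiN.mul (hFc.mul (hN.mul hFc)))
  have hzero := (hcont.ae_eq_iff_eq volume continuous_const).1 hae
  intro x
  by_cases hx : x = 0
  · rw [hx]; exact hF.1
  · have hnx : ‖x‖ ≠ 0 := norm_ne_zero_iff.2 hx
    set t : ℝ := (3 / 2) * ‖x‖⁻¹ with ht
    have ht0 : t ≠ 0 := by rw [ht]; positivity
    have hNt : N (t • x) = 9 / 4 := by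
      rw [N_smul, ht]
      unfold N
      field_simp
      norm_num
    have hz := congrFun hzero (t • x)
    rw [hNt, hF.2.2 t ht0 x] at hz
    have hcp : 0 < chi (9 / 4) := chi_pos (by norm_num) (by norm_num)
    have : chi (9 / 4) * (chi (9 / 4) * (F x * ((9 / 4)⁻¹ * F x)))
        = (chi (9 / 4) ^ 2 * (9 / 4)⁻¹) * F x ^ 2 := by ring
    rw [this] at hz
    have h2 : (chi (9 / 4) ^ 2 * (9 / 4 : ℝ)⁻¹) ≠ 0 := by positivity
    have h3 := (mul_eq_zero.1 hz).resolve_left h2
    exact pow_eq_zero_iff (two_ne_zero) |>.1 h3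

theorem Im_P_zero {F : E d → ℝ} (hF : IsProj F) {κ : ℝ}
    (hE : ∀ x, x ≠ 0 → ‖x‖ ^ 2 * lap F x = -κ * F x)
    (hI0 : ∀ m : ℕ, κ = 2 * m * (2 * m + d - 2) →
      ∀ p ∈ (P (2 * m) : Submodule ℝ (E d → ℝ)), Im F m p = 0) (m : ℕ) :
    ∀ p ∈ (P (2 * m) : Submodule ℝ (E d → ℝ)), Im F m p = 0 := by
  induction m with
  | zero =>
    intro p hp
    by_cases hκ : κ = 2 * ((0 : ℕ) : ℝ) * (2 * ((0 : ℕ) : ℝ) + d - 2)
    · exact hI0 0 hκ p hp
    · obtain ⟨hd, hh⟩ := P_smooth _ p hp
      obtain ⟨c, hc⟩ := P_zero hp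
      have hl : ∀ x, lap p x = 0 := by
        intro x; rw [hc]; exact lap_const c x
      have h := step hF hE hh hd
      simp only [hl, mul_zero, integral_zero, zero_add] at h
      refine (mul_eq_zero.1 h).resolve_left (sub_ne_zero.2 ?_)
      intro h1; apply hκ; rw [h1]
  | succ m ih =>
    intro p hp
    by_cases hκ : κ = 2 * ((m + 1 : ℕ) : ℝ) * (2 * ((m + 1 : ℕ) : ℝ) + d - 2)
    · exact hI0 _ hκ p hp
    · obtain ⟨hd, hh⟩ := P_smooth _ p hp
      have h := step hF hE hh hd
      have hI := ih (lap p) (P_lap (l := 2 * m) hp)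
      unfold Im at hI
      have hz : (-((m + 1 : ℕ) : ℤ)) = -(m : ℤ) - 1 := by push_cast; ring
      rw [hz, hI, zero_add] at h
      exact (mul_eq_zero.1 h).resolve_left (sub_ne_zero.2 hκ)

theorem kappa_inj (hd : 2 ≤ d) {m m' : ℕ}
    (h : (2 : ℝ) * m * (2 * m + d - 2) = 2 * m' * (2 * m' + d - 2)) : m = m' := by
  have hdr : (2 : ℝ) ≤ d := by exact_mod_cast hd
  by_contra hne
  rcases lt_or_gt_of_ne hne with h1 | h1
  · have h2 : (m : ℝ) < m' := by exact_mod_cast h1
    have h3 : (0 : ℝ) ≤ m := by positivity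
    nlinarith [mul_nonneg h3 (by linarith : (0 : ℝ) ≤ (d : ℝ) - 2),
      mul_nonneg (by linarith : (0 : ℝ) ≤ (m' : ℝ) - m) (by linarith : (0 : ℝ) ≤ (d : ℝ) - 2),
      mul_pos (by linarith : (0 : ℝ) < (m' : ℝ) - m) (by linarith : (0 : ℝ) < (m' : ℝ) + m)]
  · have h2 : (m' : ℝ) < m := by exact_mod_cast h1
    have h3 : (0 : ℝ) ≤ m' := by positivity
    nlinarith [mul_nonneg h3 (by linarith : (0 : ℝ) ≤ (d : ℝ) - 2),
      mul_nonneg (by linarith : (0 : ℝ) ≤ (m : ℝ) - m') (by linarith : (0 : ℝ) ≤ (d : ℝ) - 2),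
      mul_pos (by linarith : (0 : ℝ) < (m : ℝ) - m') (by linarith : (0 : ℝ) < (m : ℝ) + m')]

theorem Im_int {F p : E d → ℝ} (hF : IsProj F) (m : ℕ) (hp : ContDiff ℝ (⊤ : ℕ∞) p) :
    Integrable (fun x => chi (N x) * (chi (N x) * (F x * (N x ^ (-(m : ℤ) - 1) * p x)))) :=
  int_aux (hF.2.1.continuousOn.mul
    ((contDiffOn_zpowN _).continuousOn.mul hp.continuous.continuousOn))

theorem eig_kappa {ρ : ℝ} (hρ : 0 < ρ) {μ : ℝ} {F : E d → ℝ} (hF : F ∈ eigenspace d ρ μ) :
    ∀ x, x ≠ 0 → ‖x‖ ^ 2 * lap F x = -(ρ * μ) * F x := by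
  intro x hx
  have hF' : IsEig d ρ μ F := hF
  have h := hF'.2 x hx
  unfold lapRP at h
  have : ρ * (ρ⁻¹ * (‖x‖ ^ 2 * lap F x)) = ρ * (-μ * F x) := by rw [h]
  rw [mul_inv_cancel_left₀ hρ.ne'] at this
  rw [this]; ring

theorem eigenspace_finite (hd : 2 ≤ d) {ρ : ℝ} (hρ : 0 < ρ) (μ : ℝ) :
    Module.Finite ℝ (eigenspace d ρ μ) := by
  by_cases hex : ∃ m : ℕ, ρ * μ = 2 * m * (2 * m + d - 2)
  · obtain ⟨m, hm⟩ := hex
    have := P_finite (d := d) (2 * m)
    let Φ : eigenspace d ρ μ →ₗ[ℝ] Module.Dual ℝ (P (2 * m) : Submodule ℝ (E d → ℝ)) :=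
      { toFun := fun F =>
          { toFun := fun p => Im F.1 m p.1
            map_add' := by
              intro p q
              have h1 := Im_int (p := p.1) F.2.1 m (P_smooth _ _ p.2).1
              have h2 := Im_int (p := q.1) F.2.1 m (P_smooth _ _ q.2).1
              unfold Im
              rw [← integral_add h1 h2]
              congr 1
              funext x
              show _ * (_ * (_ * (_ * (p.1 x + q.1 x)))) = _
              ring
            map_smul' := by
              intro c p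
              unfold Im
              rw [RingHom.id_apply, smul_eq_mul, ← integral_const_mul]
              congr 1
              funext x
              show _ * (_ * (_ * (_ * (c * p.1 x)))) = _
              ring }
        map_add' := by
          intro F G
          ext p
          have h1 := Im_int (p := p.1) F.2.1 m (P_smooth _ _ p.2).1
          have h2 := Im_int (p := p.1) G.2.1 m (P_smooth _ _ p.2).1
          show Im (F.1 + G.1) m p.1 = Im F.1 m p.1 + Im G.1 m p.1
          unfold Im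
          rw [← integral_add h1 h2]
          congr 1
          funext x
          show _ * (_ * ((F.1 x + G.1 x) * _)) = _
          ring
        map_smul' := by
          intro c F
          ext p
          show Im (c • F.1) m p.1 = c * Im F.1 m p.1
          unfold Im
          rw [← integral_const_mul]
          congr 1
          funext x
          show _ * (_ * ((c * F.1 x) * _)) = _
          ring }
    have hinj : Function.Injective Φ := by
      rw [injective_iff_map_eq_zero]
      intro F hF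
      have hzero : ∀ x, F.1 x = 0 := by
        apply eq_zero_of_Im' F.2.1
        apply Im_P_zero F.2.1 (eig_kappa hρ F.2)
        intro m' hm' p hp
        have : m = m' := kappa_inj hd (by rw [← hm, hm'])
        subst this
        exact congrArg (fun f : Module.Dual ℝ (P (2 * m) : Submodule ℝ (E d → ℝ)) => f ⟨p, hp⟩) hF
      exact Subtype.ext (funext hzero)
    exact Module.Finite.of_injective Φ hinj
  · have : eigenspace d ρ μ = ⊥ := by
      rw [Submodule.eq_bot_iff]
      intro F hF
      by_contra h0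
      exact hex (eig_values hρ hF h0)
    rw [this]
    infer_instance

end Pool.Agent.X154.RP
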