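import Mathlib
import Pool.Agent.X154.RP.H2

/-!
Non-zero eigenfunctions of `RP^{d-1}` for every `2m(2m+d-2)`, and the eigenvalue listing.
-/

namespace Pool.Agent.X154.RP

open Filter Topology MeasureTheory

variable {d : ℕ}

theorem lap_coord (a : Fin d) (x : E d) : lap (fun y : E d => y a) x = 0 := by
  unfold lap
  apply Finset.sum_eq_zero
  intro i _
  have : pd i (fun y : E d => y a) = fun _ => if a = i then 1 else 0 :=
    funext fun y => pd_coord i a y
  rw [this, pd_const]

theorem lap_coord_mul (a : Fin d) {p : E d → ℝ} (hp : ContDiff ℝ (⊤ : ℕ∞) p) (x : E d) :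
    lap (fun y : E d => y a * p y) x = x a * lap p x + 2 * pd a p x := by
  rw [lap_mul ((contDiff_coord a).contDiffAt.of_le two_le_top)
    (hp.contDiffAt.of_le two_le_top), lap_coord]
  have : ∑ i, pd i (fun y : E d => y a) x * pd i p x = pd a p x := by
    rw [Finset.sum_eq_single a]
    · rw [pd_coord]; simp
    · intro b _ hb
      rw [pd_coord, if_neg (Ne.symm hb), zero_mul]
    · intro h; exact absurd (Finset.mem_univ a) h
  rw [this]; ring

theorem pd_coord_mul (i a : Fin d) {p : E d → ℝ} (hp : ContDiff ℝ (⊤ : ℕ∞) p) (x : E d) :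
    pd i (fun y : E d => y a * p y) x = x a * pd i p x + (if a = i then 1 else 0) * p x := by
  rw [pd_mul ((contDiff_coord a).differentiable (by simp) x)
    (hp.differentiable (by simp) x), pd_coord]

theorem pd_add' (i : Fin d) {f g : E d → ℝ} (hf : ContDiff ℝ (⊤ : ℕ∞) f)
    (hg : ContDiff ℝ (⊤ : ℕ∞) g) (x : E d) :
    pd i (fun y => f y + g y) x = pd i f x + pd i g x := by
  unfold pd
  rw [fderiv_fun_add (hf.differentiable (by simp) x) (hg.differentiable (by simp) x)]
  rfl

theorem pd_sub' (i : Fin d) {f g : E d → ℝ} (hf : ContDiff ℝ (⊤ : ℕ∞) f)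
    (hg : ContDiff ℝ (⊤ : ℕ∞) g) (x : E d) :
    pd i (fun y => f y - g y) x = pd i f x - pd i g x := by
  unfold pd
  rw [fderiv_fun_sub (hf.differentiable (by simp) x) (hg.differentiable (by simp) x)]
  rfl

theorem lap_sub' {f g : E d → ℝ} (hf : ContDiff ℝ (⊤ : ℕ∞) f)
    (hg : ContDiff ℝ (⊤ : ℕ∞) g) (x : E d) :
    lap (fun y => f y - g y) x = lap f x - lap g x := by
  unfold lap
  rw [← Finset.sum_sub_distrib]
  apply Finset.sum_congr rfl
  intro i _
  have : pd i (fun y => f y - g y) = fun y => pd i f y - pd i g y :=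
    funext fun y => pd_sub' i hf hg y
  rw [this, pd_sub' i (contDiff_pd hf i) (contDiff_pd hg i)]

/-- Real and imaginary part of `(x_a + i x_b)^k`. -/
theorem harm_exists {a b : Fin d} (hab : a ≠ b) (k : ℕ) : ∃ p q : E d → ℝ,
    ContDiff ℝ (⊤ : ℕ∞) p ∧ ContDiff ℝ (⊤ : ℕ∞) q ∧ Hom k p ∧ Hom k q ∧
    (∀ x, pd a p x = pd b q x) ∧ (∀ x, pd b p x = - pd a q x) ∧
    (∀ x, lap p x = 0) ∧ (∀ x, lap q x = 0) ∧
    p (EuclideanSpace.single a 1) = 1 ∧ q (EuclideanSpace.single a 1) = 0 := by
  induction k with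
  | zero =>
    refine ⟨fun _ => 1, fun _ => 0, contDiff_const, contDiff_const, fun t _ x => by simp,
      fun t _ x => by simp, ?_, ?_, lap_const 1, lap_const 0, rfl, rfl⟩
    · intro x; rw [pd_const, pd_const]
    · intro x; rw [pd_const, pd_const, neg_zero]
  | succ k ih =>
    obtain ⟨p, q, hp, hq, hhp, hhq, c1, c2, l1, l2, v1, v2⟩ := ih
    have sa : ∀ {c : Fin d} {f : E d → ℝ}, ContDiff ℝ (⊤ : ℕ∞) f →
        ContDiff ℝ (⊤ : ℕ∞) (fun y : E d => y c * f y) := fun hf => (contDiff_coord _).mul hf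
    refine ⟨fun y => y a * p y - y b * q y, fun y => y a * q y + y b * p y,
      (sa hp).sub (sa hq), (sa hq).add (sa hp), ?_, ?_, ?_, ?_, ?_, ?_, ?_, ?_⟩
    · intro t ht x
      show (t • x) a * p (t • x) - (t • x) b * q (t • x)
        = t ^ (k + 1) * (x a * p x - x b * q x)
      rw [hhp t ht x, hhq t ht x]
      simp; ring
    · intro t ht x
      show (t • x) a * q (t • x) + (t • x) b * p (t • x)
        = t ^ (k + 1) * (x a * q x + x b * p x)
      rw [hhp t ht x, hhq t ht x]
      simp; ring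
    · intro x
      rw [pd_sub' a (sa hp) (sa hq), pd_add' b (sa hq) (sa hp), pd_coord_mul a a hp,
        pd_coord_mul a b hq, pd_coord_mul b a hq, pd_coord_mul b b hp, if_pos rfl,
        if_neg (Ne.symm hab), if_neg hab, if_pos rfl, c1 x, c2 x]
      ring
    · intro x
      rw [pd_sub' b (sa hp) (sa hq), pd_add' a (sa hq) (sa hp), pd_coord_mul b a hp,
        pd_coord_mul b b hq, pd_coord_mul a a hq, pd_coord_mul a b hp, if_pos rfl,
        if_neg (Ne.symm hab), if_neg hab, if_pos rfl, c1 x, c2 x]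
      ring
    · intro x
      rw [lap_sub' (sa hp) (sa hq), lap_coord_mul a hp, lap_coord_mul b hq, l1, l2, c1 x]
      ring
    · intro x
      rw [lap_add ((sa hq).contDiffAt.of_le two_le_top) ((sa hp).contDiffAt.of_le two_le_top),
        lap_coord_mul a hq, lap_coord_mul b hp, l1, l2, c2 x]
      ring
    · show (EuclideanSpace.single a (1 : ℝ) : E d) a * p (EuclideanSpace.single a 1)
        - (EuclideanSpace.single a (1 : ℝ) : E d) b * q (EuclideanSpace.single a 1) = 1
      rw [v1, v2]; simp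
    · show (EuclideanSpace.single a (1 : ℝ) : E d) a * q (EuclideanSpace.single a 1)
        + (EuclideanSpace.single a (1 : ℝ) : E d) b * p (EuclideanSpace.single a 1) = 0
      rw [v1, v2]; simp [Ne.symm hab]

theorem exists_eigenfunction (hd : 2 ≤ d) {ρ : ℝ} (hρ : 0 < ρ) (m : ℕ) :
    ∃ F ∈ eigenspace d ρ (2 * m * (2 * m + d - 2) / ρ), F ≠ 0 := by
  set a : Fin d := ⟨0, by omega⟩ with ha
  set b : Fin d := ⟨1, by omega⟩ with hb
  have hab : a ≠ b := by
    intro h
    have := congrArg Fin.val h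
    simp [ha, hb] at this
  obtain ⟨p, q, hp, hq, hhp, hhq, c1, c2, l1, l2, v1, v2⟩ := harm_exists hab (2 * m)
  have hev : ∀ x : E d, x ≠ 0 → (fun y : E d => if y = 0 then 0 else G m p y) =ᶠ[𝓝 x] G m p := by
    intro x hx
    filter_upwards [isOpen_compl_singleton.mem_nhds hx] with y hy
    have hy' : y ≠ 0 := hy
    rw [if_neg hy']
  have hGs : ContDiffOn ℝ (⊤ : ℕ∞) (G m p) {0}ᶜ := (contDiffOn_zpowN _).mul hp.contDiffOn
  have hne : (EuclideanSpace.single a (1 : ℝ) : E d) ≠ 0 := by
    intro h0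
    have := congrArg (fun y : E d => ‖y‖) h0
    simp at this
  refine ⟨fun y => if y = 0 then 0 else G m p y, ⟨⟨?_, ?_, ?_⟩, ?_⟩, ?_⟩
  · simp
  · intro x hx
    have hx' : x ≠ 0 := hx
    apply ContDiffAt.contDiffWithinAt
    exact (hGs.contDiffAt (isOpen_compl_singleton.mem_nhds hx')).congr_of_eventuallyEq (hev x hx')
  · intro t ht x
    by_cases hx : x = 0
    · subst hx; simp
    · have htx : t • x ≠ 0 := smul_ne_zero ht hx
      simp only
      rw [if_neg hx, if_neg htx]
      have := hom_G hhp t ht x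
      rw [this]; simp
  · intro x hx
    unfold lapRP
    rw [lap_congr (hev x hx), lap_G hhp hp hx, l1]
    simp only
    rw [if_neg hx]
    unfold G
    have hN := N_pos hx
    rw [zpow_sub_one₀ hN.ne']
    have : ‖x‖ ^ 2 = N x := rfl
    rw [this]
    field_simp
    ring
  · intro h0
    have h1 := congrFun h0 (EuclideanSpace.single a 1)
    simp only [if_neg hne] at h1
    unfold G at h1
    rw [v1] at h1
    have hN := N_pos hne
    have h2 : N (EuclideanSpace.single a (1 : ℝ) : E d) ^ (-(m : ℤ)) ≠ 0 := zpow_ne_zero _ hN.ne'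
    rw [mul_one] at h1
    exact h2 h1

theorem exists_listing (hd : 2 ≤ d) {ρ : ℝ} (hρ : 0 < ρ) : ∃ lam, IsListing d ρ lam := by
  set κ : ℕ → ℝ := fun m => 2 * m * (2 * m + d - 2) / ρ with hκ
  set D : ℕ → ℕ := fun m => Module.finrank ℝ (eigenspace d ρ (κ m)) with hD
  have hDpos : ∀ m, 0 < D m := by
    intro m
    obtain ⟨F, hF, hF0⟩ := exists_eigenfunction hd hρ m
    have := eigenspace_finite hd hρ (κ m)
    have : Nontrivial (eigenspace d ρ (κ m)) :=
      ⟨⟨⟨F, hF⟩, 0, fun h0 => hF0 (congrArg Subtype.val h0)⟩⟩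
    exact Module.finrank_pos
  have hdr : (2 : ℝ) ≤ d := by exact_mod_cast hd
  have hκinj : Function.Injective κ := by
    intro m m' h
    apply kappa_inj hd
    have : κ m * ρ = κ m' * ρ := by rw [h]
    simp only [hκ] at this
    rwa [div_mul_cancel₀ _ hρ.ne', div_mul_cancel₀ _ hρ.ne'] at this
  have hκmono : Monotone κ := by
    apply monotone_nat_of_le_succ
    intro m
    simp only [hκ]
    apply div_le_div_of_nonneg_right _ hρ.le
    push_cast
    have hm : (0 : ℝ) ≤ m := by positivity
    nlinarith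
  set c : ℕ → ℕ := fun m => ∑ k ∈ Finset.range m, D k with hc
  have hcs : ∀ m, c (m + 1) = c m + D m := fun m => Finset.sum_range_succ _ _
  have hcm : ∀ m, m ≤ c m := by
    intro m
    induction m with
    | zero => simp
    | succ m ih => rw [hcs]; have := hDpos m; omega
  have hex : ∀ i, ∃ m, i < c (m + 1) := fun i => ⟨i, lt_of_lt_of_le (Nat.lt_succ_self i) (hcm _)⟩
  set M : ℕ → ℕ := fun i => Nat.find (hex i) with hM
  have hMiff : ∀ i m, M i = m ↔ c m ≤ i ∧ i < c (m + 1) := by
    intro i m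
    constructor
    · intro h
      have h1 := Nat.find_spec (hex i)
      have h2 := fun k (hk : k < M i) => Nat.find_min (hex i) hk
      rw [← h]
      refine ⟨?_, h1⟩
      rcases Nat.eq_zero_or_pos (M i) with h0 | h0
      · rw [h0]; simp [hc]
      · have h3 := h2 (M i - 1) (by omega)
        have h4 : M i - 1 + 1 = M i := by omega
        rw [h4] at h3
        omega
    · rintro ⟨h1, h2⟩
      have hcmono : Monotone c := monotone_nat_of_le_succ fun m => by rw [hcs]; omega
      apply (Nat.find_eq_iff (hex i)).2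
      refine ⟨h2, ?_⟩
      intro n hn h3
      have : c (n + 1) ≤ c m := hcmono (by omega)
      omega
  refine ⟨fun i => κ (M i), ?_, ?_⟩
  · intro i j hij
    apply hκmono
    apply Nat.find_min' (hex i)
    exact lt_of_le_of_lt hij (Nat.find_spec (hex j))
  · intro μ
    refine ⟨eigenspace_finite hd hρ μ, ?_⟩
    by_cases hμ : ∃ m, κ m = μ
    · obtain ⟨m, rfl⟩ := hμ
      have hset : {i | κ (M i) = κ m} = ((Finset.Ico (c m) (c (m + 1)) : Finset ℕ) : Set ℕ) := by
        ext i
        simp only [Set.mem_ofPred_eq, Finset.coe_Ico, Set.mem_Ico]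
        rw [← hMiff]
        exact hκinj.eq_iff
      rw [hset]
      refine ⟨Finset.finite_toSet _, ?_⟩
      rw [Set.ncard_coe_finset, Nat.card_Ico, hcs]
      show D m = _
      omega
    · push Not at hμ
      have hset : {i | κ (M i) = μ} = ∅ := by
        ext i; simp [hμ (M i)]
      rw [hset]
      refine ⟨Set.finite_empty, ?_⟩
      have hbot : eigenspace d ρ μ = ⊥ := by
        rw [Submodule.eq_bot_iff]
        intro F hF
        by_contra h0
        obtain ⟨m, hm⟩ := eig_values hρ hF h0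
        apply hμ m
        simp only [hκ]
        rw [← hm]; field_simp
      rw [hbot]
      simp

end Pool.Agent.X154.RP
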